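import Mathlib

set_option autoImplicit false

namespace Pool.Agent.Helper85.Acc

variable {V : Type*}

/-- `numComp G T` is the number of connected components of the induced subgraph of `G` on the
complement of `T`. -/
noncomputable def numComp (G : SimpleGraph V) (T : Set V) : ℕ :=
  Nat.card (G.induce Tᶜ).ConnectedComponent

/-- `T` is a cut set of `G`: adding back any vertex of `T` lowers the number of components. -/
def IsCutSet (G : SimpleGraph V) (T : Set V) : Prop :=
  ∀ i ∈ T, numComp G (T \ {i}) < numComp G T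

/-- the combinatorial form of unmixedness of the binomial edge ideal of `G` -/
def Unmixed (G : SimpleGraph V) : Prop :=
  ∀ T : Set V, IsCutSet G T → numComp G T = T.ncard + numComp G ∅

/-- `G` is accessible: unmixed, and its cut sets form an accessible set system. -/
def Accessible (G : SimpleGraph V) : Prop :=
  Unmixed G ∧ ∀ T : Set V, IsCutSet G T → T.Nonempty → ∃ t ∈ T, IsCutSet G (T \ {t})

/-! ### Components as sets -/

/-- `X` is (the vertex set of) a connected component of `G` minus `T`. -/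
def Comp (G : SimpleGraph V) (T X : Set V) : Prop :=
  X.Nonempty ∧ (∀ x ∈ X, x ∉ T) ∧
  (∀ S : Set V, S ⊆ X → S.Nonempty → (∀ x ∈ S, ∀ y ∈ X, G.Adj x y → y ∈ S) → X ⊆ S) ∧
  (∀ x ∈ X, ∀ y, G.Adj x y → y ∉ T → y ∈ X)

namespace Comp

variable {G : SimpleGraph V} {T T' X Y : Set V}

theorem nonempty (h : Comp G T X) : X.Nonempty := h.1

theorem notMem (h : Comp G T X) {x : V} (hx : x ∈ X) : x ∉ T := h.2.1 x hx

theorem closed (h : Comp G T X) {x y : V} (hx : x ∈ X) (hxy : G.Adj x y) (hy : y ∉ T) : y ∈ X :=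
  h.2.2.2 x hx y hxy hy

/-- the connected set `X` lies in the component `Y` of another removed set as soon as it meets it
and avoids the removed set -/
theorem subset_of_meets (h : Comp G T X) (h' : Comp G T' Y) (hav : ∀ x ∈ X, x ∉ T') {z : V}
    (hzX : z ∈ X) (hzY : z ∈ Y) : X ⊆ Y := by
  have := h.2.2.1 (X ∩ Y) Set.inter_subset_left ⟨z, hzX, hzY⟩
    (fun x hx y hy hxy => ⟨hy, h'.closed hx.2 hxy (hav y hy)⟩)
  exact fun x hx => (this hx).2

theorem eq_of_meets (h : Comp G T X) (h' : Comp G T Y) {z : V}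
    (hzX : z ∈ X) (hzY : z ∈ Y) : X = Y :=
  Set.Subset.antisymm (h.subset_of_meets h' (fun _ hx => h.notMem hx) hzX hzY)
    (h'.subset_of_meets h (fun _ hx => h'.notMem hx) hzY hzX)

/-- change of the removed set -/
theorem change (h : Comp G T X) (h1 : ∀ x ∈ X, x ∉ T')
    (h2 : ∀ x ∈ X, ∀ y, G.Adj x y → y ∈ T → y ∈ T') : Comp G T' X :=
  ⟨h.1, h1, h.2.2.1, fun x hx y hxy hy => h.closed hx hxy (fun hyT => hy (h2 x hx y hxy hyT))⟩

end Comp

theorem exists_comp (G : SimpleGraph V) {T : Set V} {x : V} (hx : x ∉ T) :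
    ∃ X, Comp G T X ∧ x ∈ X := by
  let F : Set (Set V) := {S | x ∈ S ∧ ∀ a ∈ S, ∀ b, G.Adj a b → b ∉ T → b ∈ S}
  let X : Set V := ⋂₀ F
  have hxX : x ∈ X := by
    intro S hS; exact hS.1
  have hclosed : ∀ a ∈ X, ∀ b, G.Adj a b → b ∉ T → b ∈ X := by
    intro a ha b hab hb S hS
    exact hS.2 a (ha S hS) b hab hb
  refine ⟨X, ⟨⟨x, hxX⟩, ?_, ?_, hclosed⟩, hxX⟩
  · intro y hy
    have : Tᶜ ∈ F := ⟨hx, fun a _ b _ hb => hb⟩
    exact hy Tᶜ this
  · intro S hSX hSne hS
    by_cases hxS : x ∈ S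
    · have : S ∈ F := ⟨hxS, fun a ha b hab hb => hS a ha b (hclosed a (hSX ha) b hab hb) hab⟩
      exact fun y hy => hy S this
    · exfalso
      have hmem : X \ S ∈ F := by
        refine ⟨⟨hxX, hxS⟩, ?_⟩
        intro a ha b hab hb
        refine ⟨hclosed a ha.1 b hab hb, ?_⟩
        intro hbS
        exact ha.2 (hS b hbS a ha.1 hab.symm)
      obtain ⟨s, hs⟩ := hSne
      exact (hSX hs (X \ S) hmem).2 hs

/-- the set of components -/
def comps (G : SimpleGraph V) (T : Set V) : Set (Set V) := {X | Comp G T X}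

theorem numComp_eq (G : SimpleGraph V) (T : Set V) : numComp G T = (comps G T).ncard := by
  classical
  let f : (G.induce Tᶜ).ConnectedComponent → Set V := fun c => Subtype.val '' c.supp
  have hcomp : ∀ c, Comp G T (f c) := by
    intro c
    refine ⟨c.nonempty_supp.image _, ?_, ?_, ?_⟩
    · rintro y ⟨⟨y', hy'⟩, _, rfl⟩
      exact hy'
    · intro S hSX ⟨s, hs⟩ hS y hy
      obtain ⟨⟨s', hs'⟩, hsc, rfl⟩ := hSX hs
      obtain ⟨⟨y', hy'⟩, hyc, rfl⟩ := hy
      have hreach : (G.induce Tᶜ).Reachable ⟨s', hs'⟩ ⟨y', hy'⟩ := by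
        rw [SimpleGraph.ConnectedComponent.mem_supp_iff] at hsc hyc
        exact SimpleGraph.ConnectedComponent.exact (hsc.trans hyc.symm)
      obtain ⟨w⟩ := hreach
      have key : ∀ (a b : ↥(Tᶜ : Set V)) (w : (G.induce Tᶜ).Walk a b), (a : V) ∈ S →
          (b : V) ∈ S := by
        intro a b w
        induction w with
        | nil => exact id
        | @cons a c b hac w' ih =>
          intro ha
          apply ih
          have hac' : G.Adj (a : V) (c : V) := hac
          obtain ⟨a', hac2, haeq⟩ := hSX ha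
          have : a' = a := Subtype.ext haeq
          subst this
          refine hS _ ha _ ?_ hac'
          refine ⟨c, ?_, rfl⟩
          rw [SimpleGraph.ConnectedComponent.mem_supp_iff] at hac2 ⊢
          rw [← hac2]
          exact SimpleGraph.ConnectedComponent.sound hac.symm.reachable
      exact key _ _ w hs
    · rintro y ⟨⟨y', hy'⟩, hyc, rfl⟩ z hyz hz
      refine ⟨⟨z, hz⟩, ?_, rfl⟩
      rw [SimpleGraph.ConnectedComponent.mem_supp_iff] at hyc ⊢
      rw [← hyc]
      have : (G.induce Tᶜ).Adj ⟨y', hy'⟩ ⟨z, hz⟩ := hyz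
      exact SimpleGraph.ConnectedComponent.sound this.symm.reachable
  have hinj : Function.Injective f := by
    intro c d hcd
    obtain ⟨x, hx⟩ := c.nonempty_supp
    have : (x : V) ∈ f d := by rw [← hcd]; exact ⟨x, hx, rfl⟩
    obtain ⟨x', hx', hxeq⟩ := this
    have : x' = x := Subtype.ext hxeq
    subst this
    rw [SimpleGraph.ConnectedComponent.mem_supp_iff] at hx hx'
    exact hx.symm.trans hx'
  have hrange : Set.range f = comps G T := by
    ext X
    constructor
    · rintro ⟨c, rfl⟩; exact hcomp c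
    · intro hX
      obtain ⟨x, hx⟩ := Comp.nonempty hX
      have hxT := Comp.notMem hX hx
      refine ⟨(G.induce Tᶜ).connectedComponentMk ⟨x, hxT⟩, ?_⟩
      exact (hcomp _).eq_of_meets hX (z := x) ⟨⟨x, hxT⟩, rfl, rfl⟩ hx
  rw [numComp, ← hrange, ← Set.image_univ, Set.ncard_image_of_injective _ hinj, Set.ncard_univ]

end Pool.Agent.Helper85.Acc
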