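import Pool.Agent.Helper85.AccComp

set_option autoImplicit false

namespace Pool.Agent.Helper85.Acc

variable {V : Type*} {G : SimpleGraph V}

/-- the vertex `t` has a neighbour in `X` -/
def Touch (G : SimpleGraph V) (t : V) (X : Set V) : Prop := ∃ x ∈ X, G.Adj t x

theorem comps_erase {T : Set V} {t : V} {Y : Set V}
    (hY : Comp G (T \ {t}) Y) (htY : t ∈ Y) :
    comps G (T \ {t}) = insert Y {X | Comp G T X ∧ ¬ Touch G t X} := by
  ext X
  constructor
  · intro hX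
    have hX : Comp G (T \ {t}) X := hX
    by_cases htX : t ∈ X
    · left
      exact hX.eq_of_meets hY htX htY
    · right
      refine ⟨hX.change (fun x hx hxT => hX.notMem hx ⟨hxT, fun h => htX (h ▸ hx)⟩)
        (fun x _ y _ hy => hy.1), ?_⟩
      rintro ⟨x, hx, htx⟩
      exact htX (hX.closed hx htx.symm (fun h => h.2 rfl))
  · rintro (rfl | ⟨hX, hn⟩)
    · exact hY
    · exact hX.change (fun x hx h => hX.notMem hx h.1)
        (fun x hx y hxy hy => ⟨hy, fun h => hn ⟨x, hx, by rw [← Set.mem_singleton_iff.1 h]; exact hxy.symm⟩⟩)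

variable [Finite V]

theorem ncard_comps_erase {T : Set V} {t : V} (ht : t ∈ T) :
    (comps G (T \ {t})).ncard + {X | Comp G T X ∧ Touch G t X}.ncard
      = (comps G T).ncard + 1 := by
  obtain ⟨Y, hY, htY⟩ := exists_comp G (T := T \ {t}) (x := t) (fun h => h.2 rfl)
  rw [comps_erase hY htY, Set.ncard_insert_of_notMem
    (fun h => h.1.notMem htY ht) (Set.toFinite _)]
  have hU : comps G T = {X | Comp G T X ∧ ¬ Touch G t X} ∪ {X | Comp G T X ∧ Touch G t X} := by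
    ext X
    simp only [comps, Set.mem_ofPred_eq, Set.mem_union]
    tauto
  have hd : Disjoint {X | Comp G T X ∧ ¬ Touch G t X} {X | Comp G T X ∧ Touch G t X} := by
    rw [Set.disjoint_left]
    rintro X ⟨_, h1⟩ ⟨_, h2⟩
    exact h1 h2
  rw [hU, Set.ncard_union_eq hd (Set.toFinite _) (Set.toFinite _)]
  omega

omit [Finite V] in
theorem isCutSet_iff {T : Set V} :
    IsCutSet G T ↔ ∀ t ∈ T, (comps G (T \ {t})).ncard < (comps G T).ncard := by
  simp only [IsCutSet, numComp_eq]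

/-- in a cut set every vertex touches two different components -/
theorem IsCutSet.two {T : Set V} (h : IsCutSet G T) {t : V} (ht : t ∈ T) :
    ∃ X Y, Comp G T X ∧ Comp G T Y ∧ Touch G t X ∧ Touch G t Y ∧ X ≠ Y := by
  have h1 := ncard_comps_erase (G := G) ht
  have h2 := isCutSet_iff.1 h t ht
  have h3 : 1 < {X | Comp G T X ∧ Touch G t X}.ncard := by omega
  rw [Set.one_lt_ncard_iff (Set.toFinite _)] at h3
  obtain ⟨X, Y, hX, hY, hne⟩ := h3
  exact ⟨X, Y, hX.1, hY.1, hX.2, hY.2, hne⟩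

theorem isCutSet_of_two {T : Set V}
    (h : ∀ t ∈ T, ∃ X Y, Comp G T X ∧ Comp G T Y ∧ Touch G t X ∧ Touch G t Y ∧ X ≠ Y) :
    IsCutSet G T := by
  rw [isCutSet_iff]
  intro t ht
  obtain ⟨X, Y, hX, hY, hX', hY', hne⟩ := h t ht
  have h1 := ncard_comps_erase (G := G) ht
  have h3 : 1 < {X | Comp G T X ∧ Touch G t X}.ncard := by
    rw [Set.one_lt_ncard_iff (Set.toFinite _)]
    exact ⟨X, Y, ⟨hX, hX'⟩, ⟨hY, hY'⟩, hne⟩
  omega

/-- the main inequality in an unmixed graph -/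
theorem Unmixed.le {T : Set V} (hU : Unmixed G) :
    (comps G T).ncard ≤ T.ncard + (comps G ∅).ncard ∧
      ((comps G T).ncard = T.ncard + (comps G ∅).ncard → IsCutSet G T) := by
  induction hn : T.ncard using Nat.strong_induction_on generalizing T with
  | _ n ih =>
    by_cases hc : IsCutSet G T
    · have := hU T hc
      rw [numComp_eq, numComp_eq] at this
      exact ⟨by omega, fun _ => hc⟩
    · have hc' := hc
      rw [isCutSet_iff] at hc'
      push Not at hc'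
      obtain ⟨t, ht, hle⟩ := hc'
      have hcard := Set.ncard_sdiff_singleton_lt_of_mem ht (Set.toFinite _)
      have hcard' := Set.ncard_sdiff_singleton_add_one ht (Set.toFinite _)
      have := (ih (T \ {t}).ncard (by omega) rfl).1
      exact ⟨by omega, by omega⟩

omit [Finite V] in
theorem Unmixed.card {T : Set V} (hU : Unmixed G) (hT : IsCutSet G T) :
    (comps G T).ncard = T.ncard + (comps G ∅).ncard := by
  have := hU T hT
  rwa [numComp_eq, numComp_eq] at this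

/-- The noncrossing count. -/
theorem noncrossing {R₁ R₂ D₁ D₂ : Set V} (h₁ : Comp G R₁ D₁) (h₂ : Comp G R₂ D₂)
    (hs₁ : R₂ \ R₁ ⊆ D₁) (hs₂ : R₁ \ R₂ ⊆ D₂) :
    (comps G R₁).ncard + (comps G R₂).ncard
      ≤ (comps G (R₁ ∪ R₂)).ncard + (comps G (R₁ ∩ R₂)).ncard + 1 ∧
    ((D₁ ∩ D₂).Nonempty → (comps G R₁).ncard + (comps G R₂).ncard
      ≤ (comps G (R₁ ∪ R₂)).ncard + (comps G (R₁ ∩ R₂)).ncard) := by
  set A₁ : Set (Set V) := comps G R₁ \ {D₁} with hA₁
  set A₂ : Set (Set V) := comps G R₂ \ {D₂} with hA₂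
  have key₁ : ∀ X ∈ A₁, ∀ x ∈ X, x ∉ R₂ := by
    rintro X ⟨hX, hXD⟩ x hx hxR
    have hX : Comp G R₁ X := hX
    exact hXD (hX.eq_of_meets h₁ hx (hs₁ ⟨hxR, hX.notMem hx⟩))
  have key₂ : ∀ X ∈ A₂, ∀ x ∈ X, x ∉ R₁ := by
    rintro X ⟨hX, hXD⟩ x hx hxR
    have hX : Comp G R₂ X := hX
    exact hXD (hX.eq_of_meets h₂ hx (hs₂ ⟨hxR, hX.notMem hx⟩))
  have hsub : A₁ ∪ A₂ ⊆ comps G (R₁ ∪ R₂) := by
    rintro X (hX | hX)
    · have hX' : Comp G R₁ X := hX.1
      exact hX'.change (fun x hx h => h.elim (hX'.notMem hx) (key₁ X hX x hx))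
        (fun x _ y _ hy => Or.inl hy)
    · have hX' : Comp G R₂ X := hX.1
      exact hX'.change (fun x hx h => h.elim (key₂ X hX x hx) (hX'.notMem hx))
        (fun x _ y _ hy => Or.inr hy)
  have hinter : A₁ ∩ A₂ ⊆ comps G (R₁ ∩ R₂) := by
    rintro X ⟨hX1, hX2⟩
    have h1 : Comp G R₁ X := hX1.1
    have h2 : Comp G R₂ X := hX2.1
    refine h1.change (fun x hx h => h1.notMem hx h.1) (fun x hx y hxy hy => ⟨hy, ?_⟩)
    by_contra hy2
    exact h1.notMem (h2.closed hx hxy hy2) hy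
  obtain ⟨d, hd⟩ := h₁.nonempty
  obtain ⟨D, hD, hdD⟩ := exists_comp G (T := R₁ ∩ R₂) (x := d) (fun h => h₁.notMem hd h.1)
  have hDn : D ∉ A₁ ∩ A₂ := by
    rintro ⟨hD1, _⟩
    have h1 : Comp G R₁ D := hD1.1
    exact hD1.2 (h1.eq_of_meets h₁ hdD hd)
  have hI : (A₁ ∩ A₂).ncard + 1 ≤ (comps G (R₁ ∩ R₂)).ncard := by
    rw [← Set.ncard_insert_of_notMem hDn (Set.toFinite _)]
    exact Set.ncard_le_ncard (Set.insert_subset hD hinter) (Set.toFinite _)
  have hUI := Set.ncard_union_add_ncard_inter A₁ A₂ (Set.toFinite _) (Set.toFinite _)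
  have hc₁ : A₁.ncard + 1 = (comps G R₁).ncard :=
    Set.ncard_sdiff_singleton_add_one (a := D₁) h₁ (Set.toFinite _)
  have hc₂ : A₂.ncard + 1 = (comps G R₂).ncard :=
    Set.ncard_sdiff_singleton_add_one (a := D₂) h₂ (Set.toFinite _)
  have hUle : (A₁ ∪ A₂).ncard ≤ (comps G (R₁ ∪ R₂)).ncard :=
    Set.ncard_le_ncard hsub (Set.toFinite _)
  refine ⟨by omega, ?_⟩
  rintro ⟨z, hz1, hz2⟩
  obtain ⟨Y, hY, hzY⟩ := exists_comp G (T := R₁ ∪ R₂) (x := z)
    (fun h => h.elim (h₁.notMem hz1) (h₂.notMem hz2))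
  have hYn : Y ∉ A₁ ∪ A₂ := by
    rintro (h | h)
    · have h' : Comp G R₁ Y := h.1
      exact h.2 (h'.eq_of_meets h₁ hzY hz1)
    · have h' : Comp G R₂ Y := h.1
      exact h.2 (h'.eq_of_meets h₂ hzY hz2)
  have hU1 : (A₁ ∪ A₂).ncard + 1 ≤ (comps G (R₁ ∪ R₂)).ncard := by
    rw [← Set.ncard_insert_of_notMem hYn (Set.toFinite _)]
    exact Set.ncard_le_ncard (Set.insert_subset hY hsub) (Set.toFinite _)
  omega

theorem noncrossing_inter (hU : Unmixed G) {R₁ R₂ D₁ D₂ : Set V} (hR₁ : IsCutSet G R₁)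
    (hR₂ : IsCutSet G R₂) (h₁ : Comp G R₁ D₁) (h₂ : Comp G R₂ D₂)
    (hs₁ : R₂ \ R₁ ⊆ D₁) (hs₂ : R₁ \ R₂ ⊆ D₂) {z : V} (hz₁ : z ∈ D₁) (hz₂ : z ∈ D₂) :
    IsCutSet G (R₁ ∩ R₂) := by
  have h := (noncrossing h₁ h₂ hs₁ hs₂).2 ⟨z, hz₁, hz₂⟩
  have e1 := hU.card hR₁
  have e2 := hU.card hR₂
  have u1 := (hU.le (T := R₁ ∪ R₂)).1
  have u2 := hU.le (T := R₁ ∩ R₂)
  have hc := Set.ncard_union_add_ncard_inter R₁ R₂ (Set.toFinite _) (Set.toFinite _)
  exact u2.2 (by omega)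

theorem noncrossing_union (hU : Unmixed G) {R₁ R₂ D₁ D₂ : Set V} (hR₁ : IsCutSet G R₁)
    (hR₂ : IsCutSet G R₂) (h₁ : Comp G R₁ D₁) (h₂ : Comp G R₂ D₂)
    (hs₁ : R₂ \ R₁ ⊆ D₁) (hs₂ : R₁ \ R₂ ⊆ D₂) (hn : ¬ IsCutSet G (R₁ ∩ R₂)) :
    IsCutSet G (R₁ ∪ R₂) ∧ ∀ z ∈ D₁, z ∉ D₂ := by
  have h := noncrossing h₁ h₂ hs₁ hs₂
  have e1 := hU.card hR₁
  have e2 := hU.card hR₂
  have u1 := hU.le (T := R₁ ∪ R₂)
  have u2 := hU.le (T := R₁ ∩ R₂)
  have u3 : (comps G (R₁ ∩ R₂)).ncard ≠ (R₁ ∩ R₂).ncard + (comps G ∅).ncard :=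
    fun h => hn (u2.2 h)
  have hc := Set.ncard_union_add_ncard_inter R₁ R₂ (Set.toFinite _) (Set.toFinite _)
  refine ⟨u1.2 (by omega), fun z hz1 hz2 => ?_⟩
  have := h.2 ⟨z, hz1, hz2⟩
  omega

/-! ### Full separators -/

/-- `S` is a set all of whose vertices touch the two components `C` and `D` of `G - S` -/
structure FullSep (G : SimpleGraph V) (S C D : Set V) : Prop where
  compC : Comp G S C
  compD : Comp G S D
  ne : C ≠ D
  touchC : ∀ s ∈ S, Touch G s C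
  touchD : ∀ s ∈ S, Touch G s D

omit [Finite V] in
theorem FullSep.symm {S C D : Set V} (h : FullSep G S C D) : FullSep G S D C :=
  ⟨h.compD, h.compC, h.ne.symm, h.touchD, h.touchC⟩

theorem FullSep.isCutSet {S C D : Set V} (h : FullSep G S C D) : IsCutSet G S :=
  isCutSet_of_two fun t ht => ⟨C, D, h.compC, h.compD, h.touchC t ht, h.touchD t ht, h.ne⟩

omit [Finite V] in
theorem FullSep.disj {S C D : Set V} (h : FullSep G S C D) {z : V} (h1 : z ∈ C) (h2 : z ∈ D) :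
    False := h.ne (h.compC.eq_of_meets h.compD h1 h2)

/-- in an accessible graph a nonempty full separator has a vertex touching only its two full
components -/
theorem FullSep.exists_mu (hA : Accessible G) {S C D : Set V} (h : FullSep G S C D)
    (hne : S.Nonempty) : ∃ m ∈ S, ∀ X, Comp G S X → Touch G m X → X = C ∨ X = D := by
  obtain ⟨t, ht, hcut⟩ := hA.2 S h.isCutSet hne
  refine ⟨t, ht, ?_⟩
  have e1 := hA.1.card h.isCutSet
  have e2 := hA.1.card hcut
  have e3 := Set.ncard_sdiff_singleton_add_one ht (Set.toFinite _)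
  have e4 := ncard_comps_erase (G := G) ht
  have e5 : {X | Comp G S X ∧ Touch G t X}.ncard = 2 := by omega
  intro X hX hXt
  by_contra hcon
  push Not at hcon
  have : ({X, C, D} : Set (Set V)) ⊆ {X | Comp G S X ∧ Touch G t X} := by
    rintro Y (rfl | rfl | rfl)
    · exact ⟨hX, hXt⟩
    · exact ⟨h.compC, h.touchC t ht⟩
    · exact ⟨h.compD, h.touchD t ht⟩
  have h3 := Set.ncard_le_ncard this (Set.toFinite _)
  have h4 : ({X, C, D} : Set (Set V)).ncard = 3 := by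
    rw [Set.ncard_insert_of_notMem (by simp [hcon.1, hcon.2]) (Set.toFinite _),
      Set.ncard_pair h.ne]
  omega

/-- a cut set properly contained in a full separator misses the special vertex -/
theorem FullSep.notMem_of_cut {S C D I : Set V} (h : FullSep G S C D) {m : V}
    (hm : ∀ X, Comp G S X → Touch G m X → X = C ∨ X = D) (hIS : I ⊆ S) {s : V} (hs : s ∈ S)
    (hsI : s ∉ I) (hI : IsCutSet G I) : m ∉ I := by
  intro hmI
  obtain ⟨X₁, X₂, hX₁, hX₂, ht₁, ht₂, hne⟩ := hI.two hmI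
  obtain ⟨B, hB, hsB⟩ := exists_comp G hsI
  -- the component `B` contains `C`, `D` and `S \ I`
  have hCI : ∀ x ∈ C, x ∉ I := fun x hx hxI => h.compC.notMem hx (hIS hxI)
  have hDI : ∀ x ∈ D, x ∉ I := fun x hx hxI => h.compD.notMem hx (hIS hxI)
  have hCB : C ⊆ B := by
    obtain ⟨c, hc, hsc⟩ := h.touchC s hs
    exact h.compC.subset_of_meets hB hCI hc (hB.closed hsB hsc (hCI c hc))
  have hDB : D ⊆ B := by
    obtain ⟨c, hc, hsc⟩ := h.touchD s hs
    exact h.compD.subset_of_meets hB hDI hc (hB.closed hsB hsc (hDI c hc))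
  have hSB : ∀ x ∈ S, x ∉ I → x ∈ B := by
    intro x hx hxI
    obtain ⟨c, hc, hxc⟩ := h.touchC x hx
    exact hB.closed (hCB hc) hxc.symm hxI
  -- one of the two components differs from `B`
  have main : ∀ X, Comp G I X → Touch G m X → X = B := by
    intro X hX ht
    by_contra hXB
    have hdis : ∀ x ∈ X, x ∉ B := fun x hx hxB => hXB (hX.eq_of_meets hB hx hxB)
    have hXS : Comp G S X := by
      refine hX.change (fun x hx hxS => ?_) (fun x _ y _ hy => hIS hy)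
      exact hdis x hx (hSB x hxS (hX.notMem hx))
    rcases hm X hXS ht with rfl | rfl
    · obtain ⟨x, hx⟩ := hX.nonempty
      exact hdis x hx (hCB hx)
    · obtain ⟨x, hx⟩ := hX.nonempty
      exact hdis x hx (hDB hx)
  exact hne ((main X₁ hX₁ ht₁).trans (main X₂ hX₂ ht₂).symm)

omit [Finite V] in
/-- the separator next to `v` facing `w` -/
theorem exists_sep {v w : V} (hvw : v ≠ w) (hadj : ¬ G.Adj v w) :
    ∃ S C D, FullSep G S C D ∧ v ∈ C ∧ w ∈ D ∧ (∀ s ∈ S, G.Adj v s) ∧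
      Comp G (insert v (G.neighborSet v)) D := by
  have hw : w ∉ insert v (G.neighborSet v) := by
    rintro (h | h)
    · exact hvw h.symm
    · exact hadj h
  obtain ⟨D, hD, hwD⟩ := exists_comp G hw
  let S : Set V := {y | y ∉ D ∧ Touch G y D}
  have hS : ∀ s ∈ S, G.Adj v s := by
    rintro s ⟨hsD, x, hx, hsx⟩
    by_contra hvs
    apply hsD
    refine hD.closed hx hsx.symm ?_
    rintro (h | h)
    · exact hD.notMem hx (Or.inr (h ▸ hsx))
    · exact hvs h
  have hSD : Comp G S D := by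
    refine hD.change (fun x hx h => h.1 hx) ?_
    intro x hx y hxy hy
    exact ⟨fun hyD => hD.notMem hyD hy, x, hx, hxy.symm⟩
  have hvS : v ∉ S := fun h => G.irrefl (hS v h)
  obtain ⟨C, hC, hvC⟩ := exists_comp G hvS
  have hvD : v ∉ D := fun h => hD.notMem h (Or.inl rfl)
  refine ⟨S, C, D, ⟨hC, hSD, ?_, ?_, ?_⟩, hvC, hwD, hS, hD⟩
  · rintro rfl; exact hvD hvC
  · intro s hs; exact ⟨v, hvC, (hS s hs).symm⟩
  · intro s hs; exact hs.2

end Pool.Agent.Helper85.Acc
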