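import Pool.Agent.Helper85.AccMain

set_option autoImplicit false

namespace Pool.Agent.Helper85.Acc

open SimpleGraph

theorem cycle_adj {m : ℕ} (hm : 3 ≤ m) {i j : ℕ} (hi : i < m) (hj : j < m) :
    (cycleGraph m).Adj ⟨i, hi⟩ ⟨j, hj⟩ ↔
      i = j + 1 ∨ j = i + 1 ∨ (i = 0 ∧ j = m - 1) ∨ (j = 0 ∧ i = m - 1) := by
  rw [cycleGraph_adj']
  have key : ∀ a b : ℕ, ∀ (ha : a < m) (hb : b < m),
      ((⟨a, ha⟩ : Fin m) - ⟨b, hb⟩).val = 1 ↔ a = b + 1 ∨ (a = 0 ∧ b = m - 1) := by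
    intro a b ha hb
    rw [Fin.val_sub]
    dsimp only
    by_cases hab : b ≤ a
    · have : m - b + a = m + (a - b) := by omega
      rw [this, Nat.add_mod_left, Nat.mod_eq_of_lt (by omega)]
      omega
    · rw [Nat.mod_eq_of_lt (by omega)]
      omega
  rw [key, key]
  omega

/-- An accessible graph has no induced cycle of length at least six. -/
theorem no_long_cycle {V : Type*} [Finite V] {G : SimpleGraph V} (hA : Accessible G)
    {m : ℕ} (hm : 6 ≤ m) (f : cycleGraph m ↪g G) : False := by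
  have hadj : ∀ {i j : ℕ} (hi : i < m) (hj : j < m), G.Adj (f ⟨i, hi⟩) (f ⟨j, hj⟩) ↔
      i = j + 1 ∨ j = i + 1 ∨ (i = 0 ∧ j = m - 1) ∨ (j = 0 ∧ i = m - 1) := by
    intro i j hi hj
    rw [f.map_adj_iff]
    exact cycle_adj (by omega) hi hj
  have hinj : ∀ {i j : ℕ} (hi : i < m) (hj : j < m), f ⟨i, hi⟩ = f ⟨j, hj⟩ → i = j := by
    intro i j hi hj h
    exact Fin.mk.inj_iff.1 (f.injective h)
  obtain ⟨x5, hx5⟩ : ∃ x, x = f ⟨0, by omega⟩ := ⟨_, rfl⟩
  obtain ⟨x0, hx0⟩ : ∃ x, x = f ⟨1, by omega⟩ := ⟨_, rfl⟩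
  obtain ⟨x1, hx1⟩ : ∃ x, x = f ⟨2, by omega⟩ := ⟨_, rfl⟩
  obtain ⟨x3, hx3⟩ : ∃ x, x = f ⟨m - 2, by omega⟩ := ⟨_, rfl⟩
  obtain ⟨x4, hx4⟩ : ∃ x, x = f ⟨m - 1, by omega⟩ := ⟨_, rfl⟩
  have a10 : G.Adj x1 x0 := by rw [hx1, hx0, hadj]; omega
  have a34 : G.Adj x3 x4 := by rw [hx3, hx4, hadj]; omega
  have a05 : G.Adj x0 x5 := by rw [hx0, hx5, hadj]; omega
  have a45 : G.Adj x4 x5 := by rw [hx4, hx5, hadj]; omega
  have n04 : ¬ G.Adj x0 x4 := by rw [hx0, hx4, hadj]; omega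
  have n14 : ¬ G.Adj x1 x4 := by rw [hx1, hx4, hadj]; omega
  have n13 : ¬ G.Adj x1 x3 := by rw [hx1, hx3, hadj]; omega
  have n30 : ¬ G.Adj x3 x0 := by rw [hx3, hx0, hadj]; omega
  have n15 : ¬ G.Adj x1 x5 := by rw [hx1, hx5, hadj]; omega
  have n35 : ¬ G.Adj x3 x5 := by rw [hx3, hx5, hadj]; omega
  have e04 : x0 ≠ x4 := by
    rw [hx0, hx4]; intro h; have := hinj _ _ h; omega
  -- the path `2, …, m - 2` avoids the closed neighbourhood of `x5`
  have hout : ∀ i (hi : i < m), 2 ≤ i → i ≤ m - 2 →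
      f ⟨i, hi⟩ ∉ insert x5 (G.neighborSet x5) := by
    intro i hi h2 hm2
    rintro (h | h)
    · rw [hx5] at h
      have := hinj _ _ h
      omega
    · have h' : G.Adj x5 (f ⟨i, hi⟩) := h
      rw [hx5, hadj] at h'
      omega
  obtain ⟨E, hE, h2E⟩ := exists_comp G (hout 2 (by omega) le_rfl (by omega))
  have hpath : ∀ i (hi : i < m), 2 ≤ i → i ≤ m - 2 → f ⟨i, hi⟩ ∈ E := by
    intro i
    induction i with
    | zero => intro _ h; omega
    | succ i ih =>
      intro hi h2 hm2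
      by_cases h : i + 1 = 2
      · have : (⟨i + 1, hi⟩ : Fin m) = ⟨2, by omega⟩ := Fin.ext h
        rw [this]; exact h2E
      · refine hE.closed (ih (by omega) (by omega) (by omega)) ?_ (hout (i + 1) hi h2 hm2)
        rw [hadj]; omega
  have h1E : x1 ∈ E := hx1 ▸ h2E
  have h3E : x3 ∈ E := by rw [hx3]; exact hpath _ _ (by omega) le_rfl
  -- complete at `x1`, then at `x3`
  have h1n : x1 ∉ insert x5 (G.neighborSet x5) := hE.notMem h1E
  have h3n : x3 ∉ insert x5 (G.neighborSet x5) := hE.notMem h3E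
  have hE1 : Comp (complete G x1) (insert x5 ((complete G x1).neighborSet x5)) E := by
    rw [complete_neighborSet n15]
    exact comp_complete_of h1n hE
  have n35' : ¬ (complete G x1).Adj x3 x5 := by
    rintro ⟨_, e | e⟩
    · exact n35 e
    · exact n13 e.1
  have hE2 : Comp (complete (complete G x1) x3)
      (insert x5 ((complete (complete G x1) x3).neighborSet x5)) E := by
    rw [complete_neighborSet n35']
    exact comp_complete_of (hE1.notMem h3E) hE1
  have hpat : Pattern (complete (complete G x1) x3) x0 x1 x3 x4 x5 E := by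
    refine ⟨(isFree_complete_self x1).complete x3, isFree_complete_self x3,
      le_complete (le_complete a10), le_complete (le_complete a34), le_complete (le_complete a05),
      le_complete (le_complete a45), e04, ?_, hE2, h1E, h3E⟩
    rintro ⟨_, ⟨_, e | e⟩ | ⟨⟨_, e | e⟩, _⟩⟩
    · exact n04 e
    · exact n14 e.2
    · exact n30 e
    · exact n13 e.1
  exact not_pattern ((hA.complete x1).complete x3) hpat

end Pool.Agent.Helper85.Acc
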