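import Pool.Agent.Helper85.AccCut

set_option autoImplicit false

namespace Pool.Agent.Helper85.Acc

variable {V : Type*} {G : SimpleGraph V}

/-- `v` is a simplicial (free) vertex: its neighbours are pairwise adjacent -/
def IsFree (G : SimpleGraph V) (v : V) : Prop :=
  ∀ a b, G.Adj v a → G.Adj v b → a ≠ b → G.Adj a b

/-- The forbidden pattern: free vertices `x1`, `x3` in one component `E` of `G - N[x5]`, and
non-adjacent common neighbours `x0` of `x1`, `x5` and `x4` of `x3`, `x5`. -/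
structure Pattern (G : SimpleGraph V) (x0 x1 x3 x4 x5 : V) (E : Set V) : Prop where
  free1 : IsFree G x1
  free3 : IsFree G x3
  h10 : G.Adj x1 x0
  h34 : G.Adj x3 x4
  h05 : G.Adj x0 x5
  h45 : G.Adj x4 x5
  ne04 : x0 ≠ x4
  n04 : ¬ G.Adj x0 x4
  compE : Comp G (insert x5 (G.neighborSet x5)) E
  x1E : x1 ∈ E
  x3E : x3 ∈ E

namespace Pattern

variable {x0 x1 x3 x4 x5 : V} {E : Set V}

theorem symm (h : Pattern G x0 x1 x3 x4 x5 E) : Pattern G x4 x3 x1 x0 x5 E :=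
  ⟨h.free3, h.free1, h.h34, h.h10, h.h45, h.h05, h.ne04.symm, fun a => h.n04 a.symm, h.compE,
    h.x3E, h.x1E⟩

theorem ne15 (h : Pattern G x0 x1 x3 x4 x5 E) : x1 ≠ x5 :=
  fun e => h.compE.notMem h.x1E (Or.inl e)

theorem n15 (h : Pattern G x0 x1 x3 x4 x5 E) : ¬ G.Adj x1 x5 :=
  fun e => h.compE.notMem h.x1E (Or.inr e.symm)

theorem n14 (h : Pattern G x0 x1 x3 x4 x5 E) : ¬ G.Adj x1 x4 :=
  fun e => h.n04 (h.free1 _ _ h.h10 e h.ne04)

theorem ne14 (h : Pattern G x0 x1 x3 x4 x5 E) : x1 ≠ x4 :=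
  fun e => h.n15 (e ▸ h.h45)

theorem ne13 (h : Pattern G x0 x1 x3 x4 x5 E) : x1 ≠ x3 :=
  fun e => h.n14 (e ▸ h.h34)

theorem n13 (h : Pattern G x0 x1 x3 x4 x5 E) : ¬ G.Adj x1 x3 := by
  intro e
  have h1 : G.Adj x0 x3 := h.free1 _ _ h.h10 e h.symm.ne14.symm
  exact h.symm.n14 h1.symm

/-- The side structure at `x1`. -/
theorem side [Finite V] (hA : Accessible G) (h : Pattern G x0 x1 x3 x4 x5 E) :
    ∃ (P C D : Set V) (m : V), FullSep G P C D ∧ x1 ∈ C ∧ x5 ∈ D ∧ x4 ∈ D ∧ x3 ∈ D ∧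
      (∀ s ∈ P, G.Adj x1 s) ∧ x0 ∈ P ∧ m ∈ P ∧ m ∈ E ∧ ¬ IsFree G m ∧ m ≠ x0 ∧
      (∀ X, Comp G P X → Touch G m X → X = C ∨ X = D) := by
  obtain ⟨P, C, D, hP, h1C, h5D, hPN, hD⟩ := exists_sep h.ne15 h.n15
  have hx0P : x0 ∈ P := by
    by_contra hx0
    have : x0 ∈ D := hP.compD.closed h5D h.h05.symm hx0
    exact hD.notMem this (Or.inr h.h10)
  have hx4D : x4 ∈ D := hP.compD.closed h5D h.h45.symm (fun hh => h.n14 (hPN _ hh))
  have hx3D : x3 ∈ D := hP.compD.closed hx4D h.h34.symm (fun hh => h.n13 (hPN _ hh))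
  obtain ⟨m, hmP, hm⟩ := hP.exists_mu hA ⟨x0, hx0P⟩
  -- the separator next to `x5`
  obtain ⟨T, E', E₁, hT, h5E', h1E₁, hTN, hE₁⟩ := exists_sep h.ne15.symm (fun e => h.n15 e.symm)
  have hEE : E₁ = E := hE₁.eq_of_meets h.compE h1E₁ h.x1E
  subst hEE
  have hTP : T \ P ⊆ D := by
    rintro t ⟨htT, htP⟩
    exact hP.compD.closed h5D (hTN t htT) htP
  have hPT : P \ T ⊆ E₁ := by
    rintro s ⟨hsP, hsT⟩
    exact hT.compD.closed h1E₁ (hPN s hsP) hsT
  have hcut : IsCutSet G (P ∩ T) :=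
    noncrossing_inter hA.1 hP.isCutSet hT.isCutSet hP.compD hT.compD hTP hPT hx3D h.x3E
  -- some vertex of `P` lies in `E`
  have hx1D : x1 ∉ D := fun hh => hP.disj h1C hh
  obtain ⟨s, hsP, hsE⟩ : ∃ s ∈ P, s ∈ E₁ := by
    by_contra hcon
    push Not at hcon
    have := hT.compD.2.2.1 (E₁ ∩ D) Set.inter_subset_left ⟨x3, h.x3E, hx3D⟩
      (fun x hx y hy hxy => ⟨hy, hP.compD.closed hx.2 hxy (fun hyP => hcon y hyP hy)⟩)
    exact hx1D (this h1E₁).2
  have hmn : m ∉ P ∩ T := hP.notMem_of_cut hm Set.inter_subset_left hsP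
    (fun hh => hT.compD.notMem hsE hh.2) hcut
  have hmE : m ∈ E₁ := hPT ⟨hmP, fun hh => hmn ⟨hmP, hh⟩⟩
  refine ⟨P, C, D, m, hP, h1C, h5D, hx4D, hx3D, hPN, hx0P, hmP, hmE, ?_, ?_, hm⟩
  · intro hfree
    obtain ⟨d, hd, hmd⟩ := hP.touchD m hmP
    have hne : x1 ≠ d := fun e => hx1D (e ▸ hd)
    have h1d : G.Adj x1 d := hfree _ _ (hPN m hmP).symm hmd hne
    exact hD.notMem hd (Or.inr h1d)
  · rintro rfl
    exact h.compE.notMem hmE (Or.inr h.h05.symm)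

/-- The special vertex of a `0`-`4` separator lies in the side separator. -/
theorem mem_side [Finite V] (hA : Accessible G) (h : Pattern G x0 x1 x3 x4 x5 E)
    {P C D : Set V} {m₁ : V} (hP : FullSep G P C D) (h4D : x4 ∈ D)
    (hPN : ∀ s ∈ P, G.Adj x1 s) (hx0P : x0 ∈ P) (hm₁P : m₁ ∈ P)
    (hm₁ : ∀ X, Comp G P X → Touch G m₁ X → X = C ∨ X = D)
    {S C₀ D₄ : Set V} (hS : FullSep G S C₀ D₄) (h0 : x0 ∈ C₀) (h4 : x4 ∈ D₄) (hm₁S : m₁ ∈ S)
    {m : V} (hmS : m ∈ S) (hm : ∀ X, Comp G S X → Touch G m X → X = C₀ ∨ X = D₄) :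
    m ∈ P := by
  have hPS : P \ S ⊆ C₀ := by
    rintro s ⟨hsP, hsS⟩
    by_cases hs0 : s = x0
    · exact hs0 ▸ h0
    · exact hS.compC.closed h0 (h.free1 _ _ h.h10 (hPN s hsP) (Ne.symm hs0)) hsS
  have hD4P : ∀ x ∈ D₄, x ∉ P := by
    intro x hx hxP
    exact hS.disj (hPS ⟨hxP, hS.compD.notMem hx⟩) hx
  have hD4D : D₄ ⊆ D := hS.compD.subset_of_meets hP.compD hD4P h4 h4D
  have hSP : S \ P ⊆ D := by
    rintro t ⟨htS, htP⟩
    obtain ⟨d, hd, htd⟩ := hS.touchD t htS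
    exact hP.compD.closed (hD4D hd) htd.symm htP
  have hx0S : x0 ∉ S := hS.compC.notMem h0
  have hncut : ¬ IsCutSet G (P ∩ S) := by
    intro hcut
    exact hP.notMem_of_cut hm₁ Set.inter_subset_left hx0P (fun hh => hx0S hh.2) hcut
      ⟨hm₁P, hm₁S⟩
  obtain ⟨hcut, hdis⟩ := noncrossing_union hA.1 hP.isCutSet hS.isCutSet hP.compD hS.compC
    hSP hPS hncut
  obtain ⟨Y₁, Y₂, hY₁, hY₂, ht₁, ht₂, hne⟩ := hcut.two (Or.inr hmS : m ∈ P ∪ S)
  by_contra hmP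
  have hmD : m ∈ D := hSP ⟨hmS, hmP⟩
  have hD4c : Comp G (P ∪ S) D₄ :=
    hS.compD.change (fun x hx hh => hh.elim (hD4P x hx) (hS.compD.notMem hx))
      (fun x _ y _ hy => Or.inr hy)
  have main : ∀ Y, Comp G (P ∪ S) Y → Touch G m Y → Y = D₄ := by
    intro Y hY ht
    by_contra hYD
    obtain ⟨y, hyY, hmy⟩ := ht
    have hyS : y ∉ S := fun hh => hY.notMem hyY (Or.inr hh)
    have hyP : y ∉ P := fun hh => hY.notMem hyY (Or.inl hh)
    obtain ⟨X, hX, hyX⟩ := exists_comp G hyS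
    have hyD : y ∈ D := hP.compD.closed hmD hmy hyP
    rcases hm X hX ⟨y, hyX, hmy⟩ with rfl | rfl
    · exact hdis y hyD hyX
    · exact hYD (hY.eq_of_meets hD4c hyY hyX)
  exact hne ((main Y₁ hY₁ ht₁).trans (main Y₂ hY₂ ht₂).symm)

/-- Key step: if the side vertices `m₁`, `m₃` are common neighbours of `x0` and `x4`, there is a
contradiction. -/
theorem exists_extend [Finite V] (hA : Accessible G) (h : Pattern G x0 x1 x3 x4 x5 E) :
    (∃ m, m ∈ E ∧ ¬ IsFree G m ∧ ¬ G.Adj m x4) ∨ (∃ m, m ∈ E ∧ ¬ IsFree G m ∧ ¬ G.Adj m x0) := by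
  obtain ⟨P₁, C₁, D₁, m₁, hP₁, h1C, h5D₁, h4D₁, h3D₁, hPN₁, h0P₁, hm₁P, hm₁E, hm₁f, hm₁0, hm₁⟩ :=
    h.side hA
  obtain ⟨P₃, C₃, D₃, m₃, hP₃, h3C, h5D₃, h0D₃, h1D₃, hPN₃, h4P₃, hm₃P, hm₃E, hm₃f, hm₃4, hm₃⟩ :=
    h.symm.side hA
  by_contra hcon
  push Not at hcon
  have hm₁4 : G.Adj m₁ x4 := hcon.1 m₁ hm₁E hm₁f
  have hm₃0 : G.Adj m₃ x0 := hcon.2 m₃ hm₃E hm₃f
  have hm₁0' : G.Adj m₁ x0 := h.free1 _ _ (hPN₁ m₁ hm₁P) h.h10 hm₁0
  have hm₃4' : G.Adj m₃ x4 := h.free3 _ _ (hPN₃ m₃ hm₃P) h.h34 hm₃4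
  obtain ⟨S, C₀, D₄, hS, h0, h4, hSN, hD₄⟩ := exists_sep h.ne04 h.n04
  have hcommon : ∀ y, G.Adj y x0 → G.Adj y x4 → y ∈ S := by
    intro y hy0 hy4
    by_contra hyS
    exact hS.disj (hS.compC.closed h0 hy0.symm hyS) (hS.compD.closed h4 hy4.symm hyS)
  have h5S : x5 ∈ S := hcommon _ h.h05.symm h.h45.symm
  obtain ⟨m, hmS, hm⟩ := hS.exists_mu hA ⟨x5, h5S⟩
  have hmP₁ : m ∈ P₁ := h.mem_side hA hP₁ h4D₁ hPN₁ h0P₁ hm₁P hm₁ hS h0 h4
    (hcommon _ hm₁0' hm₁4) hmS hm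
  have hmP₃ : m ∈ P₃ := h.symm.mem_side hA hP₃ h0D₃ hPN₃ h4P₃ hm₃P hm₃ hS.symm h4 h0
    (hcommon _ hm₃0 hm₃4') hmS (fun X hX ht => (hm X hX ht).symm)
  -- `P₁ ∩ P₃` is a cut set
  have h31 : P₃ \ P₁ ⊆ D₁ := by
    rintro t ⟨ht3, ht1⟩
    by_cases ht : t = x4
    · exact ht ▸ h4D₁
    · exact hP₁.compD.closed h4D₁ (h.free3 _ _ h.h34 (hPN₃ t ht3) (Ne.symm ht)) ht1
  have h13 : P₁ \ P₃ ⊆ D₃ := by
    rintro t ⟨ht1, ht3⟩
    by_cases ht : t = x0
    · exact ht ▸ h0D₃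
    · exact hP₃.compD.closed h0D₃ (h.free1 _ _ h.h10 (hPN₁ t ht1) (Ne.symm ht)) ht3
  have hcut : IsCutSet G (P₁ ∩ P₃) := noncrossing_inter hA.1 hP₁.isCutSet hP₃.isCutSet
    hP₁.compD hP₃.compD h31 h13 h5D₁ h5D₃
  have hsub : P₁ ∩ P₃ ⊆ S := by
    rintro k ⟨hk1, hk3⟩
    refine hcommon k ?_ ?_
    · exact h.free1 _ _ (hPN₁ k hk1) h.h10 (fun e => h.symm.n14 (e ▸ hPN₃ k hk3))
    · exact h.free3 _ _ (hPN₃ k hk3) h.h34 (fun e => h.n14 (e ▸ hPN₁ k hk1))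
  exact hS.notMem_of_cut hm hsub h5S (fun hh => hP₁.compD.notMem h5D₁ hh.1) hcut ⟨hmP₁, hmP₃⟩

end Pattern

/-! ### Completion at a vertex -/

/-- `G` with the neighbourhood of `v` completed -/
def complete (G : SimpleGraph V) (v : V) : SimpleGraph V where
  Adj a b := a ≠ b ∧ (G.Adj a b ∨ (G.Adj v a ∧ G.Adj v b))
  symm := ⟨fun _ _ h => ⟨h.1.symm, h.2.elim (fun e => Or.inl e.symm) (fun e => Or.inr ⟨e.2, e.1⟩)⟩⟩
  loopless := ⟨fun _ h => h.1 rfl⟩

theorem complete_adj {v a b : V} :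
    (complete G v).Adj a b ↔ a ≠ b ∧ (G.Adj a b ∨ (G.Adj v a ∧ G.Adj v b)) := Iff.rfl

theorem le_complete {v a b : V} (h : G.Adj a b) : (complete G v).Adj a b :=
  ⟨G.ne_of_adj h, Or.inl h⟩

theorem comp_complete_of {v : V} {T X : Set V} (hv : v ∉ T) (h : Comp G T X) :
    Comp (complete G v) T X := by
  refine ⟨h.1, h.2.1, fun S hSX hSne hS => h.2.2.1 S hSX hSne
    (fun x hx y hy hxy => hS x hx y hy (le_complete hxy)), ?_⟩
  rintro x hx y ⟨_, hxy | ⟨hvx, hvy⟩⟩ hyT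
  · exact h.closed hx hxy hyT
  · exact h.closed (h.closed hx hvx.symm hv) hvy hyT

theorem comp_complete_iff {v : V} {T X : Set V} (hv : v ∉ T) :
    Comp (complete G v) T X ↔ Comp G T X := by
  refine ⟨fun h => ?_, comp_complete_of hv⟩
  obtain ⟨x, hx⟩ := h.nonempty
  obtain ⟨Y, hY, hxY⟩ := exists_comp G (h.notMem hx)
  have := h.eq_of_meets (comp_complete_of hv hY) hx hxY
  rwa [this]

theorem numComp_complete {v : V} {T : Set V} (hv : v ∉ T) :
    numComp (complete G v) T = numComp G T := by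
  rw [numComp_eq, numComp_eq]
  congr 1
  ext X
  exact comp_complete_iff hv

theorem isCutSet_complete [Finite V] {v : V} {T : Set V} :
    IsCutSet (complete G v) T ↔ IsCutSet G T ∧ v ∉ T := by
  constructor
  · intro h
    have hv : v ∉ T := by
      intro hvT
      obtain ⟨X, Y, hX, hY, ⟨x, hx, hvx⟩, ⟨y, hy, hvy⟩, hne⟩ := h.two hvT
      have hxy : x ≠ y := by
        rintro rfl
        exact hne (hX.eq_of_meets hY hx hy)
      have hvx' : G.Adj v x := by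
        rcases hvx.2 with e | e
        · exact e
        · exact absurd e.1 G.irrefl
      have hvy' : G.Adj v y := by
        rcases hvy.2 with e | e
        · exact e
        · exact absurd e.1 G.irrefl
      have : (complete G v).Adj x y := ⟨hxy, Or.inr ⟨hvx', hvy'⟩⟩
      exact hne (hX.eq_of_meets hY (hX.closed hx this (hY.notMem hy)) hy)
    refine ⟨fun i hi => ?_, hv⟩
    have := h i hi
    rwa [numComp_complete hv, numComp_complete (fun hh => hv hh.1)] at this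
  · rintro ⟨h, hv⟩ i hi
    rw [numComp_complete hv, numComp_complete (fun hh => hv hh.1)]
    exact h i hi

theorem Accessible.complete [Finite V] (hA : Accessible G) (v : V) :
    Accessible (complete G v) := by
  refine ⟨fun T hT => ?_, fun T hT hne => ?_⟩
  · obtain ⟨h1, h2⟩ := isCutSet_complete.1 hT
    rw [numComp_complete h2, numComp_complete (Set.notMem_empty v)]
    exact hA.1 T h1
  · obtain ⟨h1, h2⟩ := isCutSet_complete.1 hT
    obtain ⟨t, ht, hc⟩ := hA.2 T h1 hne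
    exact ⟨t, ht, isCutSet_complete.2 ⟨hc, fun hh => h2 hh.1⟩⟩

theorem IsFree.complete {x : V} (hx : IsFree G x) (v : V) : IsFree (complete G v) x := by
  rintro a b ⟨hxa, ha⟩ ⟨hxb, hb⟩ hab
  refine ⟨hab, ?_⟩
  rcases ha with ha | ⟨hvx, hva⟩
  · rcases hb with hb | ⟨hvx, hvb⟩
    · exact Or.inl (hx a b ha hb hab)
    · by_cases hav : a = v
      · left; rw [hav]; exact hvb
      · right
        exact ⟨(hx a v ha hvx.symm hav).symm, hvb⟩
  · rcases hb with hb | ⟨_, hvb⟩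
    · by_cases hbv : b = v
      · left; rw [hbv]; exact hva.symm
      · right
        exact ⟨hva, (hx b v hb hvx.symm hbv).symm⟩
    · exact Or.inr ⟨hva, hvb⟩

theorem isFree_complete_self (v : V) : IsFree (complete G v) v := by
  rintro a b ⟨_, ha⟩ ⟨_, hb⟩ hab
  refine ⟨hab, Or.inr ⟨?_, ?_⟩⟩
  · rcases ha with e | e
    · exact e
    · exact absurd e.1 G.irrefl
  · rcases hb with e | e
    · exact e
    · exact absurd e.1 G.irrefl

theorem complete_neighborSet {v w : V} (h : ¬ G.Adj v w) :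
    (complete G v).neighborSet w = G.neighborSet w := by
  ext y
  simp only [SimpleGraph.mem_neighborSet, complete_adj]
  constructor
  · rintro ⟨_, e | e⟩
    · exact e
    · exact absurd e.1 h
  · intro e
    exact ⟨G.ne_of_adj e, Or.inl e⟩

namespace Pattern

variable {x0 x1 x3 x4 x5 : V} {E : Set V}

/-- a completion away from the pattern preserves it -/
theorem complete (h : Pattern G x0 x1 x3 x4 x5 E) {v : V} (hvE : v ∈ E)
    (hv : ¬ (G.Adj v x0 ∧ G.Adj v x4)) : Pattern (complete G v) x0 x1 x3 x4 x5 E := by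
  have hv5 : v ∉ insert x5 (G.neighborSet x5) := h.compE.notMem hvE
  have hv5' : ¬ G.Adj v x5 := fun e => hv5 (Or.inr e.symm)
  refine ⟨h.free1.complete v, h.free3.complete v, le_complete h.h10, le_complete h.h34,
    le_complete h.h05, le_complete h.h45, h.ne04, ?_, ?_, h.x1E, h.x3E⟩
  · rintro ⟨_, e | e⟩
    · exact h.n04 e
    · exact hv e
  · rw [complete_neighborSet hv5']
    exact comp_complete_of hv5 h.compE

end Pattern

/-- No accessible graph contains the pattern. -/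
theorem not_pattern [Finite V] {G : SimpleGraph V} (hA : Accessible G)
    {x0 x1 x3 x4 x5 : V} {E : Set V} (h : Pattern G x0 x1 x3 x4 x5 E) : False := by
  -- take a maximal accessible graph with the pattern
  have hfin : {H : SimpleGraph V | Accessible H ∧ Pattern H x0 x1 x3 x4 x5 E}.Finite :=
    Set.toFinite _
  obtain ⟨H, hH⟩ := hfin.exists_maximal ⟨G, hA, h⟩
  obtain ⟨hHA, hHP⟩ := hH.prop
  have key : ∀ m, m ∈ E → ¬ IsFree H m → ¬ (H.Adj m x0 ∧ H.Adj m x4) → False := by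
    intro m hmE hmf hm
    have h1 : complete H m ∈ {H : SimpleGraph V | Accessible H ∧ Pattern H x0 x1 x3 x4 x5 E} :=
      ⟨hHA.complete m, hHP.complete hmE hm⟩
    have h2 : H ≤ complete H m := fun a b hab => le_complete hab
    have h3 : complete H m ≤ H := hH.le_of_ge h1 h2
    apply hmf
    intro a b ha hb hab
    exact h3 ⟨hab, Or.inr ⟨ha, hb⟩⟩
  rcases hHP.exists_extend hHA with ⟨m, hmE, hmf, hm⟩ | ⟨m, hmE, hmf, hm⟩
  · exact key m hmE hmf (fun hh => hm hh.2)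
  · exact key m hmE hmf (fun hh => hm hh.1)

end Pool.Agent.Helper85.Acc
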