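import Mathlib

set_option autoImplicit false

/-!
# Derivations of algebras graded by a finite abelian group with rank one pieces

`A = ⊕ S z_χ`, `z_χ z_ψ = c(χ,ψ) z_{χ+ψ}`.
-/

namespace Pool.Agent.Helper85

section graded

variable {S A Γ : Type*} [CommRing S] [Algebra ℂ S] [CommRing A] [Algebra ℂ A]
  [AddCommGroup Γ] [Fintype Γ]

/-- coordinates with respect to the basis `z` -/
noncomputable def co {ι : S →ₐ[ℂ] A} {z : Γ → A}
    (hb : ∀ a : A, ∃! s : Γ → S, a = ∑ χ, ι (s χ) * z χ) (a : A) : Γ → S := (hb a).choose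

variable {ι : S →ₐ[ℂ] A} {z : Γ → A} (hb : ∀ a : A, ∃! s : Γ → S, a = ∑ χ, ι (s χ) * z χ)

theorem co_spec (a : A) : a = ∑ χ, ι (co hb a χ) * z χ := (hb a).choose_spec.1

theorem co_unique (a : A) (s : Γ → S) (h : a = ∑ χ, ι (s χ) * z χ) : co hb a = s :=
  ((hb a).choose_spec.2 s h).symm

theorem co_add (a b : A) (χ : Γ) : co hb (a + b) χ = co hb a χ + co hb b χ := by
  have : co hb (a + b) = fun χ => co hb a χ + co hb b χ := by
    apply co_unique
    simp only [map_add, add_mul, Finset.sum_add_distrib]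
    rw [← co_spec hb a, ← co_spec hb b]
  rw [this]

theorem co_iota_mul (s : S) (a : A) (χ : Γ) : co hb (ι s * a) χ = s * co hb a χ := by
  have : co hb (ι s * a) = fun χ => s * co hb a χ := by
    apply co_unique
    simp only [map_mul, mul_assoc]
    rw [← Finset.mul_sum, ← co_spec hb a]
  rw [this]

theorem co_sub (a b : A) (χ : Γ) : co hb (a - b) χ = co hb a χ - co hb b χ := by
  have h := co_add hb (a - b) b χ
  rw [sub_add_cancel] at h
  rw [h]
  ring

theorem co_sum {κ : Type*} (t : Finset κ) (f : κ → A) (χ : Γ) :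
    co hb (∑ i ∈ t, f i) χ = ∑ i ∈ t, co hb (f i) χ := by
  classical
  induction t using Finset.induction_on with
  | empty =>
    simp only [Finset.sum_empty]
    have := co_iota_mul hb 0 0 χ
    rw [map_zero, zero_mul, zero_mul] at this
    exact this
  | insert i t hi ih =>
    rw [Finset.sum_insert hi, Finset.sum_insert hi, co_add, ih]

theorem co_single [DecidableEq Γ] (s : S) (χ ψ : Γ) :
    co hb (ι s * z χ) ψ = if ψ = χ then s else 0 := by
  have : co hb (ι s * z χ) = fun ψ => if ψ = χ then s else 0 := by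
    apply co_unique
    rw [Finset.sum_eq_single χ]
    · simp
    · intro b _ hbne
      simp [hbne]
    · intro h
      exact absurd (Finset.mem_univ _) h
  rw [this]

theorem co_smul (k : ℂ) (a : A) (χ : Γ) : co hb (k • a) χ = k • co hb a χ := by
  have h1 : k • a = ι (algebraMap ℂ S k) * a := by
    rw [AlgHom.commutes, Algebra.smul_def]
  rw [h1, co_iota_mul, Algebra.smul_def]

variable {c : Γ → Γ → S} (hmul : ∀ χ ψ, z χ * z ψ = ι (c χ ψ) * z (χ + ψ))

include hmul in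
/-- coordinates of `a * z_ψ` -/
theorem co_mul_z (a : A) (χ ψ : Γ) : co hb (a * z ψ) (χ + ψ) = co hb a χ * c χ ψ := by
  classical
  have h1 : a * z ψ = ∑ ρ, ι (co hb a ρ * c ρ ψ) * z (ρ + ψ) := by
    conv_lhs => rw [co_spec hb a]
    rw [Finset.sum_mul]
    apply Finset.sum_congr rfl
    intro ρ _
    rw [mul_assoc, hmul, map_mul]
    ring
  rw [h1, co_sum]
  simp only [co_single]
  rw [Finset.sum_eq_single χ]
  · simp
  · intro ρ _ hρ
    rw [if_neg]
    intro h
    exact hρ (add_right_cancel h).symm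
  · intro h
    exact absurd (Finset.mem_univ _) h

end graded

section cocycle

variable {S A Γ : Type*} [CommRing S] [Algebra ℂ S] [CommRing A] [IsDomain A] [Algebra ℂ A]
  [AddCommGroup Γ] [Fintype Γ]
variable {ι : S →ₐ[ℂ] A} {z : Γ → A} (hb : ∀ a : A, ∃! s : Γ → S, a = ∑ χ, ι (s χ) * z χ)
  {c : Γ → Γ → S} (hmul : ∀ χ ψ, z χ * z ψ = ι (c χ ψ) * z (χ + ψ))

include hb in
theorem z_ne_zero [Nontrivial S] (χ : Γ) : z χ ≠ 0 := by
  classical
  intro h
  have h1 := co_single hb 1 χ χ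
  rw [if_pos rfl, h, mul_zero] at h1
  have h2 := co_iota_mul hb 0 0 χ
  rw [map_zero, zero_mul, zero_mul] at h2
  rw [h2] at h1
  exact zero_ne_one h1

include hb in
theorem iota_injective : Function.Injective ι := by
  classical
  rw [injective_iff_map_eq_zero]
  intro s hs
  have h1 := co_single hb s 0 0
  rw [if_pos rfl, hs, zero_mul] at h1
  have h2 := co_iota_mul hb 0 0 0
  rw [map_zero, zero_mul, zero_mul] at h2
  rw [← h1, h2]

include hb hmul in
theorem c_ne_zero [Nontrivial S] (χ ψ : Γ) : c χ ψ ≠ 0 := by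
  intro h
  have h1 := hmul χ ψ
  rw [h, map_zero, zero_mul] at h1
  rcases mul_eq_zero.mp h1 with h2 | h2
  · exact z_ne_zero hb χ h2
  · exact z_ne_zero hb ψ h2

include hb hmul in
theorem c_zero_right (hz0 : z 0 = 1) (χ : Γ) : c χ 0 = 1 := by
  classical
  have h1 := hmul χ 0
  rw [hz0, mul_one, add_zero] at h1
  have h2 := co_single hb (c χ 0) χ χ
  rw [if_pos rfl, ← h1] at h2
  have h3 := co_single hb 1 χ χ
  rw [if_pos rfl, map_one, one_mul] at h3
  rw [← h2, h3]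

include hb hmul in
theorem c_comm (χ ψ : Γ) : c χ ψ = c ψ χ := by
  classical
  have h1 := hmul χ ψ
  have h2 := hmul ψ χ
  rw [mul_comm, h2, add_comm ψ χ] at h1
  have h3 := co_single hb (c χ ψ) (χ + ψ) (χ + ψ)
  have h4 := co_single hb (c ψ χ) (χ + ψ) (χ + ψ)
  rw [if_pos rfl] at h3 h4
  rw [← h3, ← h4, h1]

include hb hmul in
theorem c_cocycle (χ ψ ρ : Γ) : c χ ψ * c (χ + ψ) ρ = c ψ ρ * c χ (ψ + ρ) := by
  classical
  have h1 : z χ * z ψ * z ρ = ι (c χ ψ * c (χ + ψ) ρ) * z (χ + ψ + ρ) := by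
    rw [hmul χ ψ, mul_assoc, hmul (χ + ψ) ρ, map_mul]
    ring
  have h2 : z χ * z ψ * z ρ = ι (c ψ ρ * c χ (ψ + ρ)) * z (χ + ψ + ρ) := by
    rw [mul_assoc, hmul ψ ρ, mul_left_comm, hmul χ (ψ + ρ), map_mul, add_assoc]
    ring
  have h3 := co_single hb (c χ ψ * c (χ + ψ) ρ) (χ + ψ + ρ) (χ + ψ + ρ)
  have h4 := co_single hb (c ψ ρ * c χ (ψ + ρ)) (χ + ψ + ρ) (χ + ψ + ρ)
  rw [if_pos rfl] at h3 h4
  rw [← h3, ← h4, ← h1, ← h2]

end cocycle

section val

variable {S A Γ : Type*} [CommRing S] [IsDomain S] [IsNoetherianRing S] [Algebra ℂ S]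
  [CommRing A] [IsDomain A] [Algebra ℂ A] [AddCommGroup Γ] [Fintype Γ]
variable {ι : S →ₐ[ℂ] A} {z : Γ → A} (hb : ∀ a : A, ∃! s : Γ → S, a = ∑ χ, ι (s χ) * z χ)
  {c : Γ → Γ → S} (hmul : ∀ χ ψ, z χ * z ψ = ι (c χ ψ) * z (χ + ψ))

/-- multiplicity of the prime `q` in the structure constant `c(χ,ψ)` -/
noncomputable def nu (c : Γ → Γ → S) (q : S) (χ ψ : Γ) : ℕ := multiplicity q (c χ ψ)

/-- the weight of `z_χ` along the prime `q` -/
noncomputable def wt (c : Γ → Γ → S) (q : S) (χ : Γ) : ℕ := ∑ ρ, nu c q χ ρ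

theorem mult_mul {q a b : S} (hq : Prime q) (ha : a ≠ 0) (hb' : b ≠ 0) :
    multiplicity q (a * b) = multiplicity q a + multiplicity q b := by
  apply multiplicity_mul hq
  exact FiniteMultiplicity.of_prime_left hq (mul_ne_zero ha hb')

include hb hmul in
theorem nu_cocycle {q : S} (hq : Prime q) (χ ψ ρ : Γ) :
    nu c q χ ψ + nu c q (χ + ψ) ρ = nu c q ψ ρ + nu c q χ (ψ + ρ) := by
  unfold nu
  rw [← mult_mul hq (c_ne_zero hb hmul _ _) (c_ne_zero hb hmul _ _),
    ← mult_mul hq (c_ne_zero hb hmul _ _) (c_ne_zero hb hmul _ _), c_cocycle hb hmul]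

include hb hmul in
theorem wt_add {q : S} (hq : Prime q) (χ ψ : Γ) :
    wt c q χ + wt c q ψ = wt c q (χ + ψ) + Fintype.card Γ * nu c q χ ψ := by
  have h1 : ∑ ρ, (nu c q χ ψ + nu c q (χ + ψ) ρ) = ∑ ρ, (nu c q ψ ρ + nu c q χ (ψ + ρ)) :=
    Finset.sum_congr rfl fun ρ _ => nu_cocycle hb hmul hq χ ψ ρ
  rw [Finset.sum_add_distrib, Finset.sum_add_distrib, Finset.sum_const, Finset.card_univ,
    smul_eq_mul] at h1
  have h2 : ∑ ρ, nu c q χ (ψ + ρ) = ∑ ρ, nu c q χ ρ :=
    Fintype.sum_equiv (Equiv.addLeft ψ) _ _ (fun ρ => rfl)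
  rw [h2] at h1
  unfold wt
  omega

include hb hmul in
theorem wt_zero (hz0 : z 0 = 1) {q : S} (hq : Prime q) : wt c q 0 = 0 := by
  unfold wt
  apply Finset.sum_eq_zero
  intro ρ _
  unfold nu
  rw [c_comm hb hmul, c_zero_right hb hmul hz0]
  apply multiplicity_eq_zero.mpr
  intro h
  exact hq.not_unit (isUnit_of_dvd_one h)

theorem nu_pos_iff {q : S} (χ ψ : Γ) (hc : c χ ψ ≠ 0) (hq : Prime q) :
    nu c q χ ψ ≠ 0 ↔ q ∣ c χ ψ := by
  unfold nu
  rw [Ne, multiplicity_eq_zero, not_not]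

end val

end Pool.Agent.Helper85
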