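import Mathlib
import Pool.Agent.Helper85.GradedCover

set_option autoImplicit false

/-!
# The Euler derivation along a branch component, and what a lift of it gives
-/

namespace Pool.Agent.Helper85

section euler

variable {S A Γ : Type*} [CommRing S] [IsDomain S] [IsNoetherianRing S] [Algebra ℂ S]
  [CommRing A] [IsDomain A] [Algebra ℂ A] [AddCommGroup Γ] [Fintype Γ]
variable {ι : S →ₐ[ℂ] A} {z : Γ → A} (hb : ∀ a : A, ∃! s : Γ → S, a = ∑ χ, ι (s χ) * z χ)
  {c : Γ → Γ → S} (hmul : ∀ χ ψ, z χ * z ψ = ι (c χ ψ) * z (χ + ψ))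

/-- the weighted Euler operator -/
noncomputable def T (hb : ∀ a : A, ∃! s : Γ → S, a = ∑ χ, ι (s χ) * z χ)
    (c : Γ → Γ → S) (q g : S) (a : A) : A :=
  ∑ χ, ι (g * (wt c q χ : S) * co hb a χ) * z χ

theorem T_add (q g : S) (a b : A) : T hb c q g (a + b) = T hb c q g a + T hb c q g b := by
  unfold T
  rw [← Finset.sum_add_distrib]
  apply Finset.sum_congr rfl
  intro χ _
  rw [co_add, mul_add, map_add, add_mul]

theorem T_iota_mul (q g s : S) (a : A) : T hb c q g (ι s * a) = ι s * T hb c q g a := by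
  unfold T
  rw [Finset.mul_sum]
  apply Finset.sum_congr rfl
  intro χ _
  rw [co_iota_mul]
  simp only [map_mul]
  ring

theorem T_sum {κ : Type*} (t : Finset κ) (f : κ → A) (q g : S) :
    T hb c q g (∑ i ∈ t, f i) = ∑ i ∈ t, T hb c q g (f i) := by
  classical
  induction t using Finset.induction_on with
  | empty =>
    simp only [Finset.sum_empty]
    have := T_iota_mul hb (c := c) q g 0 0
    rw [map_zero, zero_mul, zero_mul] at this
    exact this
  | insert i t hi ih =>
    rw [Finset.sum_insert hi, Finset.sum_insert hi, T_add, ih]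

theorem T_z (q g : S) (χ : Γ) : T hb c q g (z χ) = ι (g * (wt c q χ : S)) * z χ := by
  classical
  have h1 : ∀ ψ, co hb (z χ) ψ = if ψ = χ then 1 else 0 := by
    intro ψ
    have := co_single hb 1 χ ψ
    rwa [map_one, one_mul] at this
  unfold T
  rw [Finset.sum_eq_single χ]
  · rw [h1, if_pos rfl, mul_one]
  · intro ψ _ hψ
    rw [h1, if_neg hψ, mul_zero, map_zero, zero_mul]
  · intro h
    exact absurd (Finset.mem_univ _) h

include hmul in
theorem T_leibniz_basis {q : S} (hq : Prime q) (g : S) (χ ψ : Γ) :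
    ∃ d : S, T hb c q g (z χ * z ψ) - z χ * T hb c q g (z ψ) - z ψ * T hb c q g (z χ)
      = ι q * (ι d * z (χ + ψ)) := by
  rw [hmul χ ψ, T_iota_mul, T_z, T_z, T_z]
  have hw := wt_add hb hmul hq χ ψ
  have hw' : (wt c q χ : S) + (wt c q ψ : S) = (wt c q (χ + ψ) : S)
      + (Fintype.card Γ : S) * (nu c q χ ψ : S) := by
    exact_mod_cast congrArg (Nat.cast : ℕ → S) hw
  have hdvd : q ∣ c χ ψ * (nu c q χ ψ : S) := by
    by_cases h0 : nu c q χ ψ = 0
    · rw [h0, Nat.cast_zero, mul_zero]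
      exact dvd_zero _
    · have := (nu_pos_iff χ ψ (c_ne_zero hb hmul χ ψ) hq).mp h0
      exact Dvd.dvd.mul_right this _
  obtain ⟨e, he⟩ := hdvd
  refine ⟨-(g * (Fintype.card Γ : S) * e), ?_⟩
  have h1 : z χ * (ι (g * (wt c q ψ : S)) * z ψ) = ι (g * (wt c q ψ : S)) *
      (ι (c χ ψ) * z (χ + ψ)) := by
    rw [← hmul χ ψ]
    ring
  have h2 : z ψ * (ι (g * (wt c q χ : S)) * z χ) = ι (g * (wt c q χ : S)) *
      (ι (c χ ψ) * z (χ + ψ)) := by
    rw [← hmul χ ψ]
    ring
  rw [h1, h2]
  have h3 : c χ ψ * (g * (wt c q (χ + ψ) : S)) - g * (wt c q ψ : S) * c χ ψ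
      - g * (wt c q χ : S) * c χ ψ = q * -(g * (Fintype.card Γ : S) * e) := by
    have : q * -(g * (Fintype.card Γ : S) * e) = -(g * (Fintype.card Γ : S) * (q * e)) := by ring
    rw [this, ← he]
    have hw2 : (wt c q (χ + ψ) : S) = (wt c q χ : S) + (wt c q ψ : S)
      - (Fintype.card Γ : S) * (nu c q χ ψ : S) := by
      rw [hw']; ring
    rw [hw2]
    ring
  calc ι (c χ ψ) * (ι (g * (wt c q (χ + ψ) : S)) * z (χ + ψ))
        - ι (g * (wt c q ψ : S)) * (ι (c χ ψ) * z (χ + ψ))
        - ι (g * (wt c q χ : S)) * (ι (c χ ψ) * z (χ + ψ))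
      = ι (c χ ψ * (g * (wt c q (χ + ψ) : S)) - g * (wt c q ψ : S) * c χ ψ
          - g * (wt c q χ : S) * c χ ψ) * z (χ + ψ) := by
        simp only [map_sub, map_mul]
        ring
    _ = ι q * (ι (-(g * (Fintype.card Γ : S) * e)) * z (χ + ψ)) := by
        rw [h3, map_mul]
        ring

include hmul in
theorem T_leibniz {q : S} (hq : Prime q) (g : S) (a b : A) :
    T hb c q g (a * b) - a * T hb c q g b - b * T hb c q g a ∈ Ideal.span {ι q} := by
  -- first for `b` a basis element
  have step1 : ∀ (a : A) (ψ : Γ),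
      T hb c q g (a * z ψ) - a * T hb c q g (z ψ) - z ψ * T hb c q g a ∈ Ideal.span {ι q} := by
    intro a ψ
    have ha := co_spec hb a
    set s := co hb a with hs
    rw [ha, Finset.sum_mul, T_sum, T_sum, Finset.sum_mul, Finset.mul_sum,
      ← Finset.sum_sub_distrib, ← Finset.sum_sub_distrib]
    apply Ideal.sum_mem
    intro χ _
    rw [mul_assoc, T_iota_mul, T_iota_mul]
    obtain ⟨d, hd⟩ := T_leibniz_basis hb hmul hq g χ ψ
    have : ι (s χ) * T hb c q g (z χ * z ψ) - ι (s χ) * z χ * T hb c q g (z ψ)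
        - z ψ * (ι (s χ) * T hb c q g (z χ)) = ι q * (ι (s χ) * (ι d * z (χ + ψ))) := by
      have h2 : ι (s χ) * (T hb c q g (z χ * z ψ) - z χ * T hb c q g (z ψ)
        - z ψ * T hb c q g (z χ)) = ι (s χ) * (ι q * (ι d * z (χ + ψ))) := by rw [hd]
      linear_combination h2
    rw [this]
    exact Ideal.mul_mem_right _ _ (Ideal.mem_span_singleton_self _)
  have hbb := co_spec hb b
  set s := co hb b with hs
  rw [hbb, Finset.mul_sum, T_sum, T_sum, Finset.mul_sum, Finset.sum_mul,
      ← Finset.sum_sub_distrib, ← Finset.sum_sub_distrib]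
  apply Ideal.sum_mem
  intro ψ _
  have h1 : a * (ι (s ψ) * z ψ) = ι (s ψ) * (a * z ψ) := by ring
  rw [h1, T_iota_mul, T_iota_mul]
  have h2 : ι (s ψ) * T hb c q g (a * z ψ) - a * (ι (s ψ) * T hb c q g (z ψ))
      - ι (s ψ) * z ψ * T hb c q g a
      = ι (s ψ) * (T hb c q g (a * z ψ) - a * T hb c q g (z ψ) - z ψ * T hb c q g a) := by
    ring
  rw [h2]
  exact Ideal.mul_mem_left _ _ (step1 a ψ)

/-- the Euler derivation `A → A / q A` attached to a prime `q` of `S` and `g ∈ S` -/
noncomputable def euler (hb : ∀ a : A, ∃! s : Γ → S, a = ∑ χ, ι (s χ) * z χ)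
    (hmul : ∀ χ ψ, z χ * z ψ = ι (c χ ψ) * z (χ + ψ)) {q : S} (hq : Prime q) (g : S) :
    Derivation ℂ A (A ⧸ Ideal.span {ι q}) :=
  Derivation.mk'
    { toFun := fun a => Ideal.Quotient.mk (Ideal.span {ι q}) (T hb c q g a)
      map_add' := by
        intro a b
        rw [T_add, map_add]
      map_smul' := by
        intro k a
        simp only [RingHom.id_apply]
        have h1 : k • a = ι (algebraMap ℂ S k) * a := by
          rw [AlgHom.commutes, Algebra.smul_def]
        rw [h1, T_iota_mul, AlgHom.commutes, map_mul]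
        rw [Algebra.smul_def]
        rfl }
    (by
      intro a b
      change Ideal.Quotient.mk (Ideal.span {ι q}) (T hb c q g (a * b)) =
        Ideal.Quotient.mk (Ideal.span {ι q}) (a * T hb c q g b) +
        Ideal.Quotient.mk (Ideal.span {ι q}) (b * T hb c q g a)
      rw [← map_add, Ideal.Quotient.eq]
      have := T_leibniz hb hmul hq g a b
      rwa [sub_sub] at this)

theorem euler_apply {q : S} (hq : Prime q) (g : S) (a : A) :
    euler hb hmul hq g a = Ideal.Quotient.mk (Ideal.span {ι q}) (T hb c q g a) := rfl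

include hb hmul in
/-- The structure equation: what a derivation of `A` gives on the structure constants. -/
theorem struct_eq (hz0 : z 0 = 1) (D : Derivation ℂ A A) (χ ψ : Γ) :
    c χ ψ * (co hb (D (z χ)) χ + co hb (D (z ψ)) ψ - co hb (D (z (χ + ψ))) (χ + ψ))
      = co hb (D (ι (c χ ψ))) 0 := by
  have h1 : D (z χ * z ψ) = D (ι (c χ ψ) * z (χ + ψ)) := by rw [hmul]
  rw [D.leibniz, D.leibniz, smul_eq_mul, smul_eq_mul, smul_eq_mul, smul_eq_mul] at h1
  have h2 : co hb (z χ * D (z ψ) + z ψ * D (z χ)) (χ + ψ)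
      = co hb (ι (c χ ψ) * D (z (χ + ψ)) + z (χ + ψ) * D (ι (c χ ψ))) (χ + ψ) := by rw [h1]
  rw [co_add, co_add, co_iota_mul] at h2
  have e1 : co hb (z ψ * D (z χ)) (χ + ψ) = co hb (D (z χ)) χ * c χ ψ := by
    rw [mul_comm, co_mul_z hb hmul]
  have e2 : co hb (z χ * D (z ψ)) (χ + ψ) = co hb (D (z ψ)) ψ * c χ ψ := by
    rw [mul_comm, add_comm χ ψ, co_mul_z hb hmul, c_comm hb hmul ψ χ]
  have e3 : co hb (z (χ + ψ) * D (ι (c χ ψ))) (χ + ψ) = co hb (D (ι (c χ ψ))) 0 := by
    have := co_mul_z hb hmul (D (ι (c χ ψ))) 0 (χ + ψ)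
    rw [zero_add, c_comm hb hmul 0, c_zero_right hb hmul hz0, mul_one] at this
    rw [mul_comm, this]
  rw [e1, e2, e3] at h2
  linear_combination h2

end euler

section key

variable {S A Γ : Type*} [CommRing S] [IsDomain S] [IsNoetherianRing S] [Algebra ℂ S]
  [CommRing A] [IsDomain A] [Algebra ℂ A] [AddCommGroup Γ] [Fintype Γ]
variable {ι : S →ₐ[ℂ] A} {z : Γ → A} (hb : ∀ a : A, ∃! s : Γ → S, a = ∑ χ, ι (s χ) * z χ)
  {c : Γ → Γ → S} (hmul : ∀ χ ψ, z χ * z ψ = ι (c χ ψ) * z (χ + ψ))

include hb hmul in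
/-- If the Euler derivation lifts then there is a derivation of the base moving the chosen
branch component at prescribed speed and tangent to all the other ones. -/
theorem exists_base_derivation (hz0 : z 0 = 1) {q : S} (hq : Prime q) (g : S)
    (D : Derivation ℂ A A)
    (hD : ∀ a, Ideal.Quotient.mk (Ideal.span {ι q}) (D a) = euler hb hmul hq g a) :
    ∃ δ : Derivation ℂ S S,
      ((∃ χ ψ, q ∣ c χ ψ) → q ∣ δ q - (Fintype.card Γ : S) * g) ∧
      ∀ p : S, Prime p → ¬ Associated p q → (∃ χ ψ, p ∣ c χ ψ) → p ∣ δ p := by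
  classical
  have hinj := iota_injective (hb := hb)
  have hιq : ι q ≠ 0 := by
    intro h
    exact hq.ne_zero (hinj (by rw [h, map_zero]))
  -- `D (ι s)` is divisible by `ι q`
  have hdiv : ∀ s : S, ∃ a', D (ι s) = ι q * a' := by
    intro s
    have h1 := hD (ι s)
    rw [euler_apply] at h1
    have h2 : T hb c q g (ι s) = 0 := by
      have := T_iota_mul hb (c := c) q g s (z 0)
      rw [hz0, mul_one] at this
      rw [this, ← hz0, T_z, wt_zero hb hmul hz0 hq]
      simp
    rw [h2, map_zero, Ideal.Quotient.eq_zero_iff_mem, Ideal.mem_span_singleton] at h1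
    exact h1
  choose a' ha' using hdiv
  have hco : ∀ s, co hb (D (ι s)) 0 = q * co hb (a' s) 0 := by
    intro s
    rw [ha', co_iota_mul]
  -- the derivation of `S`
  let δ : Derivation ℂ S S := Derivation.mk'
    { toFun := fun s => co hb (a' s) 0
      map_add' := by
        intro s t
        apply mul_left_cancel₀ hq.ne_zero
        rw [mul_add, ← hco, ← hco, ← hco, map_add, D.map_add, co_add]
      map_smul' := by
        intro k s
        simp only [RingHom.id_apply]
        apply mul_left_cancel₀ hq.ne_zero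
        rw [← hco, map_smul, D.map_smul, co_smul, hco, mul_smul_comm] }
    (by
      intro s t
      change co hb (a' (s * t)) 0 = s * co hb (a' t) 0 + t * co hb (a' s) 0
      apply mul_left_cancel₀ hq.ne_zero
      rw [← hco, map_mul, D.leibniz, smul_eq_mul, smul_eq_mul, co_add, co_iota_mul, co_iota_mul,
        hco, hco]
      ring)
  have hδ : ∀ s, q * δ s = co hb (D (ι s)) 0 := fun s => (hco s).symm
  -- the values of `D` on the basis
  have hu : ∀ χ, ∃ e : S, co hb (D (z χ)) χ = g * (wt c q χ : S) + q * e := by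
    intro χ
    have h1 := hD (z χ)
    rw [euler_apply, T_z, Ideal.Quotient.eq, Ideal.mem_span_singleton] at h1
    obtain ⟨b, hb1⟩ := h1
    refine ⟨co hb b χ, ?_⟩
    have h2 : co hb (D (z χ) - ι (g * (wt c q χ : S)) * z χ) χ = co hb (ι q * b) χ := by
      rw [hb1]
    have hz1 : co hb (z χ) χ = 1 := by
      have := co_single hb 1 χ χ
      rwa [map_one, one_mul, if_pos rfl] at this
    rw [co_sub, co_iota_mul, hz1, co_iota_mul] at h2
    linear_combination h2
  choose e he using hu
  refine ⟨δ, ?_, ?_⟩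
  · rintro ⟨χ, ψ, hdvd⟩
    have hstr := struct_eq hb hmul hz0 D χ ψ
    rw [← hδ, he, he, he] at hstr
    have hc0 := c_ne_zero hb hmul χ ψ
    have hfin : FiniteMultiplicity q (c χ ψ) := FiniteMultiplicity.of_prime_left hq hc0
    obtain ⟨h, hch, hnd⟩ := hfin.exists_eq_pow_mul_and_not_dvd
    set ν := multiplicity q (c χ ψ) with hν
    have hνpos : ν ≠ 0 := by
      intro h0
      rw [hν, multiplicity_eq_zero] at h0
      exact h0 hdvd
    obtain ⟨k, hk⟩ := Nat.exists_eq_succ_of_ne_zero hνpos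
    have hw := wt_add hb hmul hq χ ψ
    have hnu : nu c q χ ψ = ν := rfl
    rw [hnu] at hw
    have hw' : (wt c q χ : S) + (wt c q ψ : S) = (wt c q (χ + ψ) : S)
        + (Fintype.card Γ : S) * (ν : S) := by
      exact_mod_cast congrArg (Nat.cast : ℕ → S) hw
    have hδc : δ (c χ ψ) = (ν : S) * q ^ k * δ q * h + q ^ ν * δ h := by
      conv_lhs => rw [hch]
      rw [δ.leibniz, δ.leibniz_pow, smul_eq_mul, smul_eq_mul, smul_eq_mul, nsmul_eq_mul, hk]
      simp only [Nat.succ_eq_add_one, Nat.add_sub_cancel]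
      ring
    have hmain : q ^ ν * (h * (g * ((Fintype.card Γ : S) * (ν : S))
        + q * (e χ + e ψ - e (χ + ψ)))) = q ^ ν * ((ν : S) * δ q * h + q * δ h) := by
      have h1 : q * δ (c χ ψ) = q ^ ν * ((ν : S) * δ q * h + q * δ h) := by
        have hpow : q ^ ν = q ^ k * q := by rw [hk, pow_succ]
        rw [hδc, hpow]
        ring
      rw [← h1, ← hstr]
      have h2 : g * (wt c q χ : S) + q * e χ + (g * (wt c q ψ : S) + q * e ψ)
          - (g * (wt c q (χ + ψ) : S) + q * e (χ + ψ))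
          = g * ((Fintype.card Γ : S) * (ν : S)) + q * (e χ + e ψ - e (χ + ψ)) := by
        linear_combination g * hw'
      rw [h2]
      conv_rhs => rw [hch]
      ring
    have hcancel := mul_left_cancel₀ (pow_ne_zero ν hq.ne_zero) hmain
    have hd1 : q ∣ h * ((ν : S) * (δ q - (Fintype.card Γ : S) * g)) := by
      refine ⟨h * (e χ + e ψ - e (χ + ψ)) - δ h, ?_⟩
      linear_combination -hcancel
    rcases hq.dvd_or_dvd hd1 with h1 | h1
    · exact absurd h1 hnd
    · have hunit : IsUnit (ν : S) := by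
        have h3 : (ν : S) = algebraMap ℂ S (ν : ℂ) := by simp
        rw [h3]
        exact (IsUnit.mk0 _ (by exact_mod_cast hνpos)).map _
      exact (hunit.dvd_mul_left).mp h1
  · intro p hp hpq ⟨χ, ψ, hdvd⟩
    have hstr := struct_eq hb hmul hz0 D χ ψ
    rw [← hδ] at hstr
    have hc0 := c_ne_zero hb hmul χ ψ
    have hfin : FiniteMultiplicity p (c χ ψ) := FiniteMultiplicity.of_prime_left hp hc0
    obtain ⟨h, hch, hnd⟩ := hfin.exists_eq_pow_mul_and_not_dvd
    set ν := multiplicity p (c χ ψ) with hν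
    have hνpos : ν ≠ 0 := by
      intro h0
      rw [hν, multiplicity_eq_zero] at h0
      exact h0 hdvd
    obtain ⟨k, hk⟩ := Nat.exists_eq_succ_of_ne_zero hνpos
    have hδc : δ (c χ ψ) = (ν : S) * p ^ k * δ p * h + p ^ ν * δ h := by
      conv_lhs => rw [hch]
      rw [δ.leibniz, δ.leibniz_pow, smul_eq_mul, smul_eq_mul, smul_eq_mul, nsmul_eq_mul, hk]
      simp only [Nat.succ_eq_add_one, Nat.add_sub_cancel]
      ring
    set U := co hb (D (z χ)) χ + co hb (D (z ψ)) ψ - co hb (D (z (χ + ψ))) (χ + ψ) with hU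
    have hmain : p ^ k * (p * (h * U)) = p ^ k * (q * ((ν : S) * δ p * h + p * δ h)) := by
      have h1 : p ^ ν * h * U = q * δ (c χ ψ) := by
        rw [← hstr]
        conv_rhs => rw [hch]
      have hpow : p ^ ν = p ^ k * p := by rw [hk, pow_succ]
      rw [hδc, hpow] at h1
      linear_combination h1
    have hcancel := mul_left_cancel₀ (pow_ne_zero k hp.ne_zero) hmain
    have hd1 : p ∣ q * (h * ((ν : S) * δ p)) := by
      refine ⟨h * U - q * δ h, ?_⟩
      linear_combination -hcancel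
    rcases hp.dvd_or_dvd hd1 with h1 | h1
    · exact absurd (hp.associated_of_dvd hq h1) hpq
    · rcases hp.dvd_or_dvd h1 with h2 | h2
      · exact absurd h2 hnd
      · have hunit : IsUnit (ν : S) := by
          have h3 : (ν : S) = algebraMap ℂ S (ν : ℂ) := by simp
          rw [h3]
          exact (IsUnit.mk0 _ (by exact_mod_cast hνpos)).map _
        exact (hunit.dvd_mul_left).mp h2

end key

end Pool.Agent.Helper85
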