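import Mathlib

set_option autoImplicit false

/-!
# Rigidity and lifting of derivations

For a quotient `A = P / I` of a formal power series ring over the complex numbers, `A` a domain,
vanishing of the module of first-order deformations forces every derivation `A → A / f A` to lift
to a derivation `A → A`.
-/

namespace Pool.Agent.Helper85

open MvPowerSeries

/-- The coefficient function of the `i`-th piece in the splitting of a power series with
zero constant term along the variables. -/
noncomputable def piece {n : ℕ} (f : MvPowerSeries (Fin n) ℂ) (i : Fin n) :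
    MvPowerSeries (Fin n) ℂ :=
  fun d => if (∀ j < i, d j = 0) then coeff (d + Finsupp.single i 1) f else 0

theorem eq_sum_X_mul {n : ℕ} (f : MvPowerSeries (Fin n) ℂ) (h : constantCoeff f = 0) :
    f = ∑ i, X i * piece f i := by
  classical
  ext d
  rw [map_sum]
  by_cases hd : d = 0
  · subst hd
    rw [coeff_zero_eq_constantCoeff_apply, h]
    symm
    apply Finset.sum_eq_zero
    intro i _
    rw [coeff_zero_eq_constantCoeff_apply, map_mul, constantCoeff_X, zero_mul]
  · -- least index with nonzero exponent
    have hex : ∃ i, d i ≠ 0 := by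
      by_contra hcon
      push Not at hcon
      exact hd (Finsupp.ext hcon)
    obtain ⟨i0, hi0, hmin⟩ : ∃ i0, d i0 ≠ 0 ∧ ∀ j < i0, d j = 0 := by
      have hs : (Finset.univ.filter (fun i => d i ≠ 0)).Nonempty := by
        obtain ⟨i, hi⟩ := hex
        exact ⟨i, by simp [hi]⟩
      refine ⟨(Finset.univ.filter (fun i => d i ≠ 0)).min' hs, ?_, ?_⟩
      · have := Finset.min'_mem _ hs
        simpa using this
      · intro j hj
        by_contra hne
        have := Finset.min'_le (Finset.univ.filter (fun i => d i ≠ 0)) j (by simp [hne])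
        exact absurd hj (not_lt.mpr this)
    rw [Finset.sum_eq_single i0]
    · have hsplit : d = Finsupp.single i0 1 + (d - Finsupp.single i0 1) := by
        ext j
        by_cases hj : j = i0
        · subst hj
          simp only [Finsupp.coe_add, Finsupp.coe_tsub, Pi.add_apply, Pi.sub_apply,
            Finsupp.single_eq_same]
          omega
        · simp [Finsupp.single_apply, Ne.symm hj]
      rw [X_def]
      conv_rhs => rw [hsplit, coeff_add_monomial_mul, one_mul]
      show coeff d f = piece f i0 (d - Finsupp.single i0 1)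
      unfold piece
      rw [if_pos]
      · conv_rhs => rw [add_comm, ← hsplit]
      · intro j hj
        simp [hmin j hj]
    · intro i _ hi
      rw [X_def]
      by_cases hdi : d i = 0
      · rw [coeff_monomial_mul, if_neg]
        intro hle
        have := hle i
        simp [hdi] at this
      · have hsplit : d = Finsupp.single i 1 + (d - Finsupp.single i 1) := by
          ext j
          by_cases hj : j = i
          · subst hj
            simp only [Finsupp.coe_add, Finsupp.coe_tsub, Pi.add_apply, Pi.sub_apply,
              Finsupp.single_eq_same]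
            omega
          · simp [Finsupp.single_apply, Ne.symm hj]
        rw [hsplit, coeff_add_monomial_mul, one_mul]
        show piece f i (d - Finsupp.single i 1) = 0
        unfold piece
        rw [if_neg]
        intro hall
        have hlt : i0 < i := by
          rcases lt_trichotomy i0 i with h1 | h1 | h1
          · exact h1
          · exact absurd h1.symm hi
          · exact absurd (hmin i h1) hdi
        have := hall i0 hlt
        simp [Finsupp.single_apply, Ne.symm hlt.ne] at this
        exact hi0 this
    · intro hni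
      exact absurd (Finset.mem_univ _) hni

/-- A derivation from a power series ring into a finitely generated module which kills the
variables is zero (by Krull's intersection theorem). -/
theorem derivation_eq_zero {n : ℕ} {M : Type*} [AddCommGroup M]
    [Module (MvPowerSeries (Fin n) ℂ) M] [Module ℂ M]
    [Module.Finite (MvPowerSeries (Fin n) ℂ) M]
    (Δ : Derivation ℂ (MvPowerSeries (Fin n) ℂ) M) (h : ∀ i, Δ (X i) = 0)
    (f : MvPowerSeries (Fin n) ℂ) : Δ f = 0 := by
  set m := IsLocalRing.maximalIdeal (MvPowerSeries (Fin n) ℂ) with hm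
  have key : ∀ k : ℕ, ∀ f : MvPowerSeries (Fin n) ℂ,
      Δ f ∈ (m ^ k • ⊤ : Submodule (MvPowerSeries (Fin n) ℂ) M) := by
    intro k
    induction k with
    | zero => intro f; simp
    | succ k ih =>
      intro f
      have hf : f = C (constantCoeff f) + (f - C (constantCoeff f)) := by ring
      have h0 : constantCoeff (f - C (constantCoeff f)) = 0 := by simp
      have hC : Δ (C (constantCoeff f)) = 0 := by
        have := Δ.map_algebraMap (constantCoeff f)
        simpa [MvPowerSeries.algebraMap_apply] using this
      rw [hf, Δ.map_add, hC, zero_add, eq_sum_X_mul _ h0, map_sum]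
      apply Submodule.sum_mem
      intro i _
      rw [Δ.leibniz, h i, smul_zero, add_zero, pow_succ', mul_smul]
      apply Submodule.smul_mem_smul
      · rw [hm, IsLocalRing.mem_maximalIdeal, mem_nonunits_iff, isUnit_iff_constantCoeff]
        simp
      · exact ih _
  have hinf := Ideal.iInf_pow_smul_eq_bot_of_isLocalRing (M := M) m
    (Ideal.IsPrime.ne_top inferInstance)
  have : Δ f ∈ (⨅ i : ℕ, m ^ i • ⊤ : Submodule (MvPowerSeries (Fin n) ℂ) M) := by
    rw [Submodule.mem_iInf]
    intro k
    exact key k f
  rw [hinf] at this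
  simpa using this

/-- The derivation `P → P / I` with prescribed values on the variables. -/
noncomputable def varDer {n : ℕ} (I : Ideal (MvPowerSeries (Fin n) ℂ))
    (a : Fin n → MvPowerSeries (Fin n) ℂ ⧸ I) :
    Derivation ℂ (MvPowerSeries (Fin n) ℂ) (MvPowerSeries (Fin n) ℂ ⧸ I) :=
  Derivation.mk'
    { toFun := fun g => ∑ j, a j * Ideal.Quotient.mk I (pderiv ℂ j g)
      map_add' := by
        intro g h
        simp only [map_add, mul_add, Finset.sum_add_distrib]
      map_smul' := by
        intro c g
        simp only [RingHom.id_apply]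
        rw [Finset.smul_sum]
        apply Finset.sum_congr rfl
        intro j _
        rw [(pderiv ℂ j).map_smul]
        change a j * (c • Ideal.Quotient.mk I (pderiv ℂ j g)) = _
        rw [mul_smul_comm] }
    (by
      intro g h
      change (∑ j, a j * Ideal.Quotient.mk I (pderiv ℂ j (g * h))) =
        Ideal.Quotient.mk I g * (∑ j, a j * Ideal.Quotient.mk I (pderiv ℂ j h)) +
        Ideal.Quotient.mk I h * (∑ j, a j * Ideal.Quotient.mk I (pderiv ℂ j g))
      rw [Finset.mul_sum, Finset.mul_sum, ← Finset.sum_add_distrib]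
      apply Finset.sum_congr rfl
      intro j _
      rw [(pderiv ℂ j).leibniz, map_add, smul_eq_mul, smul_eq_mul, map_mul, map_mul]
      ring)

theorem varDer_apply {n : ℕ} (I : Ideal (MvPowerSeries (Fin n) ℂ))
    (a : Fin n → MvPowerSeries (Fin n) ℂ ⧸ I) (g : MvPowerSeries (Fin n) ℂ) :
    varDer I a g = ∑ j, a j * Ideal.Quotient.mk I (pderiv ℂ j g) := rfl

theorem pderiv_X_same {n : ℕ} (i : Fin n) :
    pderiv ℂ i (X i : MvPowerSeries (Fin n) ℂ) = 1 := by
  simp

theorem pderiv_X_ne {n : ℕ} {i j : Fin n} (h : j ≠ i) :
    pderiv ℂ i (X j : MvPowerSeries (Fin n) ℂ) = 0 := by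
  simp [h]

theorem varDer_X {n : ℕ} (I : Ideal (MvPowerSeries (Fin n) ℂ))
    (a : Fin n → MvPowerSeries (Fin n) ℂ ⧸ I) (i : Fin n) :
    varDer I a (X i) = a i := by
  rw [varDer_apply, Finset.sum_eq_single i]
  · rw [pderiv_X_same, map_one, mul_one]
  · intro j _ hj
    rw [pderiv_X_ne (Ne.symm hj), map_zero, mul_zero]
  · intro h
    exact absurd (Finset.mem_univ _) h

/-- If every module homomorphism `I → P / I` is the restriction of a derivation `P → P / I`
(that is, `T¹ = 0`), and `P / I` is a domain, then every derivation of `A = P / I` into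
`A / f A`, `f ≠ 0`, lifts to a derivation `A → A`. -/
theorem exists_lift {n : ℕ} (I : Ideal (MvPowerSeries (Fin n) ℂ))
    [IsDomain (MvPowerSeries (Fin n) ℂ ⧸ I)]
    (hrig : ∀ φ : I →ₗ[MvPowerSeries (Fin n) ℂ] (MvPowerSeries (Fin n) ℂ ⧸ I),
        ∃ D : Derivation ℂ (MvPowerSeries (Fin n) ℂ) (MvPowerSeries (Fin n) ℂ ⧸ I),
          ∀ x : I, D (x : MvPowerSeries (Fin n) ℂ) = φ x)
    (f : MvPowerSeries (Fin n) ℂ ⧸ I) (hf : f ≠ 0)
    (δ : Derivation ℂ (MvPowerSeries (Fin n) ℂ ⧸ I)
      ((MvPowerSeries (Fin n) ℂ ⧸ I) ⧸ Ideal.span {f})) :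
    ∃ D : Derivation ℂ (MvPowerSeries (Fin n) ℂ ⧸ I) (MvPowerSeries (Fin n) ℂ ⧸ I),
      ∀ a, Ideal.Quotient.mk (Ideal.span {f}) (D a) = δ a := by
  classical
  -- values on the variables
  have hval : ∀ j : Fin n, ∃ a : MvPowerSeries (Fin n) ℂ ⧸ I,
      Ideal.Quotient.mk (Ideal.span {f}) a
      = δ (Ideal.Quotient.mk I (X j)) := fun j => Ideal.Quotient.mk_surjective _
  choose a ha using hval
  set D0 := varDer I a with hD0
  -- the difference derivation `P → A / f`
  let q : (MvPowerSeries (Fin n) ℂ ⧸ I) →ₗ[MvPowerSeries (Fin n) ℂ]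
      ((MvPowerSeries (Fin n) ℂ ⧸ I) ⧸ Ideal.span {f}) :=
    (Ideal.Quotient.mkₐ (MvPowerSeries (Fin n) ℂ) (Ideal.span {f})).toLinearMap
  have hq : ∀ b, q b = Ideal.Quotient.mk (Ideal.span {f}) b := fun b => rfl
  let δP : Derivation ℂ (MvPowerSeries (Fin n) ℂ)
      ((MvPowerSeries (Fin n) ℂ ⧸ I) ⧸ Ideal.span {f}) :=
    Derivation.mk'
      { toFun := fun g => δ (Ideal.Quotient.mk I g)
        map_add' := by
          intro g h
          rw [map_add, δ.map_add]
        map_smul' := by
          intro c g
          simp only [RingHom.id_apply]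
          rw [← δ.map_smul]
          rfl }
      (by
        intro g h
        change δ (Ideal.Quotient.mk I (g * h)) = _
        rw [map_mul, δ.leibniz]
        rfl)
  have hδP : ∀ g, δP g = δ (Ideal.Quotient.mk I g) := fun g => rfl
  haveI : Module.Finite (MvPowerSeries (Fin n) ℂ)
      ((MvPowerSeries (Fin n) ℂ ⧸ I) ⧸ Ideal.span {f}) :=
    Module.Finite.of_surjective q Ideal.Quotient.mk_surjective
  have hdiff : ∀ g, q (D0 g) = δP g := by
    intro g
    have h0 := derivation_eq_zero (q.compDer D0 - δP) (by
      intro i
      rw [Derivation.sub_apply]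
      change q (D0 (X i)) - δP (X i) = 0
      rw [hD0, varDer_X, hq, hδP, ha i, sub_self]) g
    rw [Derivation.sub_apply] at h0
    change q (D0 g) - δP g = 0 at h0
    exact sub_eq_zero.mp h0
  -- `D0` maps `I` into `f A`
  have hI : ∀ x : I, ∃ b, D0 (x : MvPowerSeries (Fin n) ℂ) = f * b := by
    intro x
    have h1 : q (D0 (x : MvPowerSeries (Fin n) ℂ)) = 0 := by
      rw [hdiff, hδP, Ideal.Quotient.eq_zero_iff_mem.mpr x.2, δ.map_zero]
    rw [hq, Ideal.Quotient.eq_zero_iff_mem, Ideal.mem_span_singleton] at h1
    exact h1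
  choose b hb using hI
  -- the homomorphism `I → A`
  let φ : I →ₗ[MvPowerSeries (Fin n) ℂ] (MvPowerSeries (Fin n) ℂ ⧸ I) :=
    { toFun := b
      map_add' := by
        intro x y
        apply mul_left_cancel₀ hf
        rw [← hb, mul_add, ← hb, ← hb]
        exact D0.map_add _ _
      map_smul' := by
        intro p x
        apply mul_left_cancel₀ hf
        rw [← hb]
        change D0 (p * (x : MvPowerSeries (Fin n) ℂ)) =
          f * (Ideal.Quotient.mk I p * b x)
        rw [D0.leibniz]
        change Ideal.Quotient.mk I p * D0 (x : MvPowerSeries (Fin n) ℂ) +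
          Ideal.Quotient.mk I (x : MvPowerSeries (Fin n) ℂ) * D0 p = _
        rw [Ideal.Quotient.eq_zero_iff_mem.mpr x.2, hb]
        ring }
  obtain ⟨D1, hD1⟩ := hrig φ
  -- the corrected derivation kills `I`
  let D2 : Derivation ℂ (MvPowerSeries (Fin n) ℂ) (MvPowerSeries (Fin n) ℂ ⧸ I) :=
    Derivation.mk'
      { toFun := fun g => D0 g - f * D1 g
        map_add' := by
          intro g h
          rw [D0.map_add, D1.map_add]
          ring
        map_smul' := by
          intro c g
          simp only [RingHom.id_apply]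
          rw [D0.map_smul, D1.map_smul, smul_sub, mul_smul_comm] }
      (by
        intro g h
        change D0 (g * h) - f * D1 (g * h) = Ideal.Quotient.mk I g * (D0 h - f * D1 h) +
          Ideal.Quotient.mk I h * (D0 g - f * D1 g)
        rw [D0.leibniz, D1.leibniz]
        change (Ideal.Quotient.mk I g * D0 h + Ideal.Quotient.mk I h * D0 g) -
          f * (Ideal.Quotient.mk I g * D1 h + Ideal.Quotient.mk I h * D1 g) = _
        ring)
  have hD2 : ∀ g, D2 g = D0 g - f * D1 g := fun g => rfl
  have hkill : ∀ g h, Ideal.Quotient.mk I g = Ideal.Quotient.mk I h → D2 g = D2 h := by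
    intro g h hgh
    have hmem : g - h ∈ I := Ideal.Quotient.eq.mp hgh
    have h1 : D2 (g - h) = 0 := by
      rw [hD2, hD1 ⟨g - h, hmem⟩, hb ⟨g - h, hmem⟩]
      exact sub_self _
    rw [D2.map_sub] at h1
    exact sub_eq_zero.mp h1
  choose s hs using (Ideal.Quotient.mk_surjective (I := I))
  have hD2s : ∀ g, D2 (s (Ideal.Quotient.mk I g)) = D2 g := fun g => hkill _ _ (hs _)
  refine ⟨Derivation.mk'
      { toFun := fun x => D2 (s x)
        map_add' := by
          intro x y
          rw [← D2.map_add]
          apply hkill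
          rw [hs, map_add, hs, hs]
        map_smul' := by
          intro c x
          simp only [RingHom.id_apply]
          rw [← D2.map_smul]
          apply hkill
          rw [hs]
          change c • x = c • Ideal.Quotient.mk I (s x)
          rw [hs] }
      ?_, ?_⟩
  · intro x y
    change D2 (s (x * y)) = x * D2 (s y) + y * D2 (s x)
    have h1 : D2 (s (x * y)) = D2 (s x * s y) := by
      apply hkill
      rw [hs, map_mul, hs, hs]
    rw [h1, D2.leibniz]
    change Ideal.Quotient.mk I (s x) * D2 (s y) + Ideal.Quotient.mk I (s y) * D2 (s x) = _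
    rw [hs, hs]
  · intro x
    change Ideal.Quotient.mk (Ideal.span {f}) (D2 (s x)) = δ x
    rw [hD2, map_sub, ← hq, hdiff, hδP, hs]
    have : Ideal.Quotient.mk (Ideal.span {f}) (f * D1 (s x)) = 0 := by
      rw [Ideal.Quotient.eq_zero_iff_mem]
      exact Ideal.mul_mem_right _ _ (Ideal.mem_span_singleton_self f)
    rw [this, sub_zero]

end Pool.Agent.Helper85
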