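import Mathlib
import Pool.Agent.Helper85.RigidLift
import Pool.Agent.Helper85.CoverDer

set_option autoImplicit false

namespace Pool.Agent.Helper85

open MvPowerSeries

theorem constantCoeff_piece {n : ℕ} (f : MvPowerSeries (Fin n) ℂ) (i : Fin n) :
    constantCoeff (piece f i) = coeff (Finsupp.single i 1) f := by
  rw [← coeff_zero_eq_constantCoeff_apply]
  change piece f i 0 = _
  unfold piece
  rw [if_pos (by intro j _; rfl), zero_add]

theorem constantCoeff_der {m : ℕ} (δ : Derivation ℂ (MvPowerSeries (Fin m) ℂ)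
    (MvPowerSeries (Fin m) ℂ)) (p : MvPowerSeries (Fin m) ℂ) (hp : constantCoeff p = 0) :
    constantCoeff (δ p) = ∑ k, coeff (Finsupp.single k 1) p * constantCoeff (δ (X k)) := by
  conv_lhs => rw [eq_sum_X_mul p hp]
  rw [map_sum, map_sum]
  apply Finset.sum_congr rfl
  intro k _
  rw [δ.leibniz, smul_eq_mul, smul_eq_mul, map_add, map_mul, map_mul, constantCoeff_X, zero_mul,
    zero_add, constantCoeff_piece]

instance instIsDomainMvPowerSeries (m : ℕ) : IsDomain (MvPowerSeries (Fin m) ℂ) :=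
  NoZeroDivisors.to_isDomain _

/-- Branch components of a rigid abelian cover of a smooth germ have independent gradients. -/
theorem linearIndependent_of_rigid {n m r : ℕ} {Γ : Type*} [AddCommGroup Γ] [Fintype Γ]
    (I : Ideal (MvPowerSeries (Fin n) ℂ)) [IsDomain (MvPowerSeries (Fin n) ℂ ⧸ I)]
    (hrig : ∀ φ : I →ₗ[MvPowerSeries (Fin n) ℂ] (MvPowerSeries (Fin n) ℂ ⧸ I),
        ∃ D : Derivation ℂ (MvPowerSeries (Fin n) ℂ) (MvPowerSeries (Fin n) ℂ ⧸ I),
          ∀ x : I, D (x : MvPowerSeries (Fin n) ℂ) = φ x)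
    (ι : MvPowerSeries (Fin m) ℂ →ₐ[ℂ] (MvPowerSeries (Fin n) ℂ ⧸ I))
    (z : Γ → MvPowerSeries (Fin n) ℂ ⧸ I) (hz0 : z 0 = 1)
    (hb : ∀ a, ∃! s : Γ → MvPowerSeries (Fin m) ℂ, a = ∑ χ, ι (s χ) * z χ)
    (c : Γ → Γ → MvPowerSeries (Fin m) ℂ)
    (hmul : ∀ χ ψ, z χ * z ψ = ι (c χ ψ) * z (χ + ψ))
    (p : Fin r → MvPowerSeries (Fin m) ℂ) (hp : ∀ i, Prime (p i))
    (hpp : ∀ i j, i ≠ j → ¬ Associated (p i) (p j))
    (hc : ∀ i, ∃ χ ψ, p i ∣ c χ ψ) :
    LinearIndependent ℂ (fun i => fun k : Fin m => coeff (Finsupp.single k 1) (p i)) := by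
  classical
  have hinj := iota_injective (hb := hb)
  have hcc : ∀ i, constantCoeff (p i) = 0 := by
    intro i
    by_contra h
    exact (hp i).not_isUnit (isUnit_iff_constantCoeff.mpr (isUnit_iff_ne_zero.mpr h))
  have hN : (Fintype.card Γ : ℂ) ≠ 0 := by
    have : Fintype.card Γ ≠ 0 := Fintype.card_ne_zero
    exact_mod_cast this
  -- the base derivations
  have hδ : ∀ i, ∃ δ : Derivation ℂ (MvPowerSeries (Fin m) ℂ) (MvPowerSeries (Fin m) ℂ),
      constantCoeff (δ (p i)) = Fintype.card Γ ∧ ∀ j, j ≠ i → constantCoeff (δ (p j)) = 0 := by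
    intro i
    have hq : ι (p i) ≠ 0 := by
      intro h
      exact (hp i).ne_zero (hinj (by rw [h, map_zero]))
    obtain ⟨D, hD⟩ := exists_lift I hrig (ι (p i)) hq (euler hb hmul (hp i) 1)
    obtain ⟨δ, h1, h2⟩ := exists_base_derivation hb hmul hz0 (hp i) 1 D hD
    refine ⟨δ, ?_, ?_⟩
    · obtain ⟨t, ht⟩ := h1 (hc i)
      have := congrArg constantCoeff ht
      rw [map_mul, hcc, zero_mul, mul_one, map_sub, map_natCast, sub_eq_zero] at this
      exact this
    · intro j hj
      obtain ⟨t, ht⟩ := h2 (p j) (hp j) (hpp j i hj) (hc j)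
      rw [ht, map_mul, hcc, zero_mul]
  choose δ hδ1 hδ2 using hδ
  rw [Fintype.linearIndependent_iff]
  intro g hg i
  have h1 : ∑ j, g j * constantCoeff (δ i (p j)) = 0 := by
    have h2 : ∀ j, constantCoeff (δ i (p j)) =
        ∑ k, coeff (Finsupp.single k 1) (p j) * constantCoeff (δ i (X k)) :=
      fun j => constantCoeff_der (δ i) (p j) (hcc j)
    simp_rw [h2, Finset.mul_sum]
    rw [Finset.sum_comm]
    apply Finset.sum_eq_zero
    intro k _
    have h3 := congrFun hg k
    simp only [Finset.sum_apply, Pi.smul_apply, smul_eq_mul, Pi.zero_apply] at h3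
    calc ∑ j, g j * (coeff (Finsupp.single k 1) (p j) * constantCoeff (δ i (X k)))
        = (∑ j, g j * coeff (Finsupp.single k 1) (p j)) * constantCoeff (δ i (X k)) := by
          rw [Finset.sum_mul]
          apply Finset.sum_congr rfl
          intro j _
          ring
      _ = 0 := by rw [h3, zero_mul]
  rw [Finset.sum_eq_single i] at h1
  · rw [hδ1] at h1
    exact (mul_eq_zero.mp h1).resolve_right hN
  · intro j _ hj
    rw [hδ2 i j hj, mul_zero]
  · intro h
    exact absurd (Finset.mem_univ _) h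

end Pool.Agent.Helper85
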